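import Mathlib

/-!
Averages of `U ^ (m ^ 2) f` over windows `M ≤ m < M + L`, uniformly in `M`, for an isometry `U` of a
Hilbert space.
-/

set_option autoImplicit false

namespace Pool.Agent.N476.FR

open Finset Filter Topology

variable {E : Type*} [NormedAddCommGroup E] [InnerProductSpace ℝ E]

lemma mul_ap (U V : E →ₗᵢ[ℝ] E) (x : E) : (U * V) x = U (V x) := rfl

/-- the vectors `U ^ (m ^ 2) f` -/
noncomputable def vv (U : E →ₗᵢ[ℝ] E) (f : E) (m : ℕ) : E := (U ^ (m ^ 2)) f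

lemma norm_vv (U : E →ₗᵢ[ℝ] E) (f : E) (m : ℕ) : ‖vv U f m‖ = ‖f‖ := (U ^ (m ^ 2)).norm_map f

/-- the average over the window `M ≤ m < M + L` -/
noncomputable def av (U : E →ₗᵢ[ℝ] E) (f : E) (M L : ℕ) : E :=
  (L : ℝ)⁻¹ • ∑ j ∈ range L, vv U f (M + j)

lemma norm_sum_vv (U : E →ₗᵢ[ℝ] E) (f : E) (M L : ℕ) :
    ‖∑ j ∈ range L, vv U f (M + j)‖ ≤ L * ‖f‖ := by
  refine (norm_sum_le _ _).trans (le_of_eq ?_)
  simp [norm_vv]

lemma norm_av (U : E →ₗᵢ[ℝ] E) (f : E) (M L : ℕ) : ‖av U f M L‖ ≤ ‖f‖ := by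
  unfold av
  rw [norm_smul, norm_inv, Real.norm_natCast]
  rcases Nat.eq_zero_or_pos L with h | h
  · subst h; simp
  · have hL : (0 : ℝ) < L := by exact_mod_cast h
    rw [inv_mul_le_iff₀ hL]
    exact norm_sum_vv U f M L

lemma av_add (U : E →ₗᵢ[ℝ] E) (f g : E) (M L : ℕ) : av U (f + g) M L = av U f M L + av U g M L := by
  unfold av vv
  simp [Finset.sum_add_distrib, smul_add]

lemma av_smul (U : E →ₗᵢ[ℝ] E) (c : ℝ) (f : E) (M L : ℕ) : av U (c • f) M L = c • av U f M L := by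
  unfold av vv
  simp only [map_smul]
  rw [← Finset.smul_sum, smul_comm]

/-- the averages over long windows are close to each other -/
def CW (U : E →ₗᵢ[ℝ] E) (f : E) : Prop :=
  ∀ ε > 0, ∃ L0 : ℕ, 1 ≤ L0 ∧ ∀ L ≥ L0, ∀ L' ≥ L0, ∀ M M' : ℕ, ‖av U f M L - av U f M' L'‖ ≤ ε

/-- the subspace of the vectors with `CW` -/
def CWS (U : E →ₗᵢ[ℝ] E) : Submodule ℝ E where
  carrier := {f | CW U f}
  add_mem' := by
    intro f g hf hg ε hε
    obtain ⟨L1, h1, hL1⟩ := hf (ε / 2) (by positivity)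
    obtain ⟨L2, h2, hL2⟩ := hg (ε / 2) (by positivity)
    refine ⟨max L1 L2, le_trans h1 (le_max_left _ _), fun L hL L' hL' M M' => ?_⟩
    rw [av_add, av_add, add_sub_add_comm]
    refine (norm_add_le _ _).trans ?_
    have e1 := hL1 L (le_trans (le_max_left _ _) hL) L' (le_trans (le_max_left _ _) hL') M M'
    have e2 := hL2 L (le_trans (le_max_right _ _) hL) L' (le_trans (le_max_right _ _) hL') M M'
    linarith
  zero_mem' := by
    intro ε hε
    refine ⟨1, le_rfl, fun L _ L' _ M M' => ?_⟩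
    have h : ∀ M L, av U (0 : E) M L = 0 := by
      intro M L; unfold av vv; simp
    rw [h, h, sub_zero, norm_zero]
    exact le_of_lt hε
  smul_mem' := by
    intro c f hf ε hε
    obtain ⟨L1, h1, hL1⟩ := hf (ε / (|c| + 1)) (by positivity)
    refine ⟨L1, h1, fun L hL L' hL' M M' => ?_⟩
    rw [av_smul, av_smul, ← smul_sub, norm_smul, Real.norm_eq_abs]
    have e1 := hL1 L hL L' hL' M M'
    calc |c| * ‖av U f M L - av U f M' L'‖ ≤ (|c| + 1) * (ε / (|c| + 1)) :=
          mul_le_mul (by linarith) e1 (norm_nonneg _) (by positivity)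
      _ = ε := by field_simp

lemma mem_CWS {U : E →ₗᵢ[ℝ] E} {f : E} : f ∈ CWS U ↔ CW U f := Iff.rfl

lemma isClosed_CWS (U : E →ₗᵢ[ℝ] E) : IsClosed (CWS U : Set E) := by
  rw [← closure_subset_iff_isClosed]
  intro f hf
  rw [Metric.mem_closure_iff] at hf
  rw [SetLike.mem_coe, mem_CWS]
  intro ε hε
  obtain ⟨g, hg, hfg⟩ := hf (ε / 3) (by positivity)
  rw [dist_eq_norm] at hfg
  obtain ⟨L1, h1, hL1⟩ := hg (ε / 3) (by positivity)
  refine ⟨L1, h1, fun L hL L' hL' M M' => ?_⟩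
  have e1 := hL1 L hL L' hL' M M'
  have e2 : ∀ M L, av U f M L = av U g M L + av U (f - g) M L := by
    intro M L
    rw [← av_add]; congr 1; abel
  rw [e2, e2 M' L']
  have e3 := norm_av U (f - g) M L
  have e4 := norm_av U (f - g) M' L'
  calc _ = ‖(av U g M L - av U g M' L') + (av U (f - g) M L - av U (f - g) M' L')‖ := by
        congr 1; abel
    _ ≤ ‖av U g M L - av U g M' L'‖ + (‖av U (f - g) M L‖ + ‖av U (f - g) M' L'‖) :=
        (norm_add_le _ _).trans (add_le_add le_rfl (norm_sub_le _ _))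
    _ ≤ ε := by linarith

/-! ### the periodic part -/

lemma period_shift {v : ℕ → E} {q : ℕ} (h : ∀ m, v (m + q) = v m) (M : ℕ) :
    ∑ j ∈ range q, v (M + j) = ∑ j ∈ range q, v j := by
  induction M with
  | zero => simp
  | succ M ih =>
    rw [← ih]
    have e1 := Finset.sum_range_succ (fun j => v (M + j)) q
    have e2 := Finset.sum_range_succ' (fun j => v (M + j)) q
    rw [e1] at e2
    rw [h M, add_zero] at e2
    have e3 : ∑ j ∈ range q, v (M + 1 + j) = ∑ j ∈ range q, v (M + (j + 1)) :=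
      Finset.sum_congr rfl fun j _ => by congr 1; ring
    rw [e3]
    exact (add_right_cancel e2).symm

lemma window_period {v : ℕ → E} {q : ℕ} (hq : 1 ≤ q) (h : ∀ m, v (m + q) = v m) {R : ℝ}
    (hR : ∀ m, ‖v m‖ ≤ R) (L : ℕ) : ∀ M : ℕ,
    ‖∑ j ∈ range L, v (M + j) - ((L : ℝ) / q) • ∑ j ∈ range q, v j‖ ≤ 2 * q * R := by
  have hR0 : 0 ≤ R := (norm_nonneg _).trans (hR 0)
  have hq0 : (0 : ℝ) < q := by exact_mod_cast hq
  induction L using Nat.strong_induction_on with
  | _ L ih =>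
    intro M
    rcases lt_or_ge L q with hL | hL
    · have hLq : (L : ℝ) ≤ q := by exact_mod_cast hL.le
      have e1 : ‖∑ j ∈ range L, v (M + j)‖ ≤ L * R := by
        refine (norm_sum_le _ _).trans ((Finset.sum_le_sum fun j _ => hR _).trans (le_of_eq ?_))
        simp
      have e2 : ‖((L : ℝ) / q) • ∑ j ∈ range q, v j‖ ≤ L * R := by
        rw [norm_smul, Real.norm_of_nonneg (by positivity)]
        have : ‖∑ j ∈ range q, v j‖ ≤ q * R := by
          refine (norm_sum_le _ _).trans ((Finset.sum_le_sum fun j _ => hR _).trans (le_of_eq ?_))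
          simp
        calc (L : ℝ) / q * ‖∑ j ∈ range q, v j‖ ≤ (L : ℝ) / q * (q * R) :=
              mul_le_mul_of_nonneg_left this (by positivity)
          _ = _ := by field_simp
      have e3 := mul_le_mul_of_nonneg_right hLq hR0
      refine (norm_sub_le _ _).trans ?_
      linarith
    · have e1 : ∑ j ∈ range L, v (M + j) =
          ∑ j ∈ range q, v j + ∑ j ∈ range (L - q), v (M + q + j) := by
        rw [← period_shift h M]
        obtain ⟨k, rfl⟩ := Nat.exists_eq_add_of_le hL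
        rw [Nat.add_sub_cancel_left, Finset.sum_range_add]
        congr 1
        exact Finset.sum_congr rfl fun j _ => by congr 1; ring
      have e2 : ((L : ℝ) / q) = 1 + (((L - q : ℕ) : ℝ) / q) := by
        rw [Nat.cast_sub hL]
        field_simp
        ring
      have e3 := ih (L - q) (by omega) (M + q)
      rw [e1, e2, add_smul, one_smul, add_sub_add_left_eq_sub]
      exact e3

lemma CW_of_period (U : E →ₗᵢ[ℝ] E) {q : ℕ} (hq : 1 ≤ q) {f : E} (hf : (U ^ q) f = f) :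
    CW U f := by
  have hper : ∀ m, vv U f (m + q) = vv U f m := by
    intro m
    unfold vv
    have e1 : (m + q) ^ 2 = m ^ 2 + q * (2 * m + q) := by ring
    rw [e1, pow_add, pow_mul, mul_ap]
    congr 1
    generalize 2 * m + q = r
    induction r with
    | zero => simp
    | succ r ih => rw [pow_succ, mul_ap, hf, ih]
  have hw := window_period hq hper (R := ‖f‖) (fun m => (norm_vv U f m).le)
  intro ε hε
  obtain ⟨L1, hL1⟩ := exists_nat_ge (4 * q * ‖f‖ / ε)
  refine ⟨L1 + 1, by omega, ?_⟩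
  have key : ∀ L ≥ L1 + 1, ∀ M : ℕ,
      ‖av U f M L - ((1 : ℝ) / q) • ∑ j ∈ range q, vv U f j‖ ≤ ε / 2 := by
    intro L hL M
    have hL0 : (0 : ℝ) < L := by exact_mod_cast (by omega : 0 < L)
    have hLL : (L1 : ℝ) ≤ L := by exact_mod_cast (by omega : L1 ≤ L)
    have e1 : av U f M L - ((1 : ℝ) / q) • ∑ j ∈ range q, vv U f j =
        (L : ℝ)⁻¹ • (∑ j ∈ range L, vv U f (M + j) - ((L : ℝ) / q) • ∑ j ∈ range q, vv U f j) := by
      unfold av
      rw [smul_sub, smul_smul]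
      congr 2
      field_simp
    rw [e1, norm_smul, norm_inv, Real.norm_natCast, inv_mul_le_iff₀ hL0]
    refine (hw L M).trans ?_
    rw [div_le_iff₀ hε] at hL1
    have := mul_le_mul_of_nonneg_right hLL hε.le
    linarith
  intro L hL L' hL' M M'
  have e1 := key L hL M
  have e2 := key L' hL' M'
  calc _ = ‖(av U f M L - ((1 : ℝ) / q) • ∑ j ∈ range q, vv U f j) -
        (av U f M' L' - ((1 : ℝ) / q) • ∑ j ∈ range q, vv U f j)‖ := by congr 1; abel
    _ ≤ _ := (norm_sub_le _ _).trans (by linarith)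

/-! ### the totally ergodic part -/

section Complete

variable [CompleteSpace E]

lemma fix_pow (W : E →ₗᵢ[ℝ] E) {p : E} (hp : W p = p) (M : ℕ) : (W ^ M) p = p := by
  induction M with
  | zero => simp
  | succ M ih => rw [pow_succ, mul_ap, hp, ih]

/-- the mean ergodic theorem for inner products over windows -/
theorem window_inner (W : E →ₗᵢ[ℝ] E) (f : E) (hf : ∀ x, W x = x → inner ℝ f x = 0) (y : E)
    {ε : ℝ} (hε : 0 < ε) :
    ∀ᶠ L : ℕ in atTop, ∀ M : ℕ, |∑ j ∈ range L, inner ℝ f ((W ^ (M + j)) y)| ≤ ε * L := by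
  have h := W.toContinuousLinearMap.tendsto_birkhoffAverage_orthogonalProjection
    (W.norm_toContinuousLinearMap_le) y
  have hex : ∃ p : E, W p = p ∧ Tendsto (fun n =>
      birkhoffAverage ℝ (⇑W.toContinuousLinearMap) _root_.id n y) atTop (𝓝 p) :=
    ⟨_, LinearMap.mem_eqLocus.1 (Subtype.prop (Submodule.orthogonalProjectionOnto
      (LinearMap.eqLocus (W.toContinuousLinearMap : E →ₗ[ℝ] E)
        ((1 : E →L[ℝ] E) : E →ₗ[ℝ] E)) y)), h⟩
  clear h
  obtain ⟨p, hWp, h⟩ := hex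
  have hit : ∀ n : ℕ, (⇑W.toContinuousLinearMap)^[n] y = (W ^ n) y := by
    intro n
    induction n with
    | zero => simp
    | succ n ih => rw [Function.iterate_succ_apply', ih, pow_succ', mul_ap]; rfl
  rw [Metric.tendsto_atTop] at h
  obtain ⟨L0, hL0⟩ := h (ε / (‖f‖ + 1)) (by positivity)
  refine eventually_atTop.2 ⟨max L0 1, fun L hL M => ?_⟩
  have hL1 : (0 : ℝ) < L := by
    have : 1 ≤ L := le_trans (le_max_right _ _) hL
    exact_mod_cast this
  have h1 := (hL0 L (le_trans (le_max_left _ _) hL)).le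
  rw [dist_eq_norm] at h1
  have h2 : birkhoffAverage ℝ (⇑W.toContinuousLinearMap) _root_.id L y =
      (L : ℝ)⁻¹ • ∑ j ∈ range L, (W ^ j) y := by
    unfold birkhoffAverage birkhoffSum
    congr 1
    exact Finset.sum_congr rfl fun j _ => hit j
  rw [h2] at h1
  have h3 : ∑ j ∈ range L, inner ℝ f ((W ^ (M + j)) y) =
      L * inner ℝ f ((W ^ M) ((L : ℝ)⁻¹ • ∑ j ∈ range L, (W ^ j) y - p)) := by
    rw [map_sub, fix_pow W hWp, inner_sub_right, hf p hWp, sub_zero, map_smul, inner_smul_right,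
      map_sum, inner_sum, ← mul_assoc, mul_inv_cancel₀ hL1.ne', one_mul]
    refine Finset.sum_congr rfl fun j _ => ?_
    rw [pow_add, mul_ap]
  rw [h3, abs_mul, abs_of_pos hL1, mul_comm ε]
  refine mul_le_mul_of_nonneg_left ?_ hL1.le
  refine (abs_real_inner_le_norm _ _).trans ?_
  rw [LinearIsometry.norm_map]
  calc ‖f‖ * _ ≤ (‖f‖ + 1) * (ε / (‖f‖ + 1)) :=
        mul_le_mul (by linarith) h1 (norm_nonneg _) (by positivity)
    _ = ε := by field_simp

lemma shift_window {v : ℕ → E} {R : ℝ} (hR : ∀ m, ‖v m‖ ≤ R) (M L h : ℕ) :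
    ‖∑ j ∈ range L, v (M + j) - ∑ j ∈ range L, v (M + j + h)‖ ≤ 2 * h * R := by
  induction h with
  | zero => simp
  | succ h ih =>
    have e1 : ∑ j ∈ range L, v (M + j + h) - ∑ j ∈ range L, v (M + j + (h + 1)) =
        v (M + h) - v (M + L + h) := by
      have g1 := Finset.sum_range_succ (fun j => v (M + j + h)) L
      have g2 := Finset.sum_range_succ' (fun j => v (M + j + h)) L
      rw [g1] at g2
      have g3 : ∑ j ∈ range L, v (M + j + (h + 1)) = ∑ j ∈ range L, v (M + (j + 1) + h) :=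
        Finset.sum_congr rfl fun j _ => by congr 1; ring
      rw [add_zero] at g2
      rw [g3, sub_eq_sub_iff_add_eq_add, g2]
      abel
    calc _ = ‖(∑ j ∈ range L, v (M + j) - ∑ j ∈ range L, v (M + j + h)) +
          (∑ j ∈ range L, v (M + j + h) - ∑ j ∈ range L, v (M + j + (h + 1)))‖ := by
          congr 1; abel
      _ ≤ 2 * h * R + (R + R) := by
          refine (norm_add_le _ _).trans (add_le_add ih ?_)
          rw [e1]
          exact (norm_sub_le _ _).trans (add_le_add (hR _) (hR _))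
      _ = _ := by push_cast; ring

lemma inner_vv (U : E →ₗᵢ[ℝ] E) (f : E) (n d : ℕ) :
    inner ℝ (vv U f n) (vv U f (n + d)) = inner ℝ f (((U ^ (2 * d)) ^ n) ((U ^ (d ^ 2)) f)) := by
  unfold vv
  have e1 : (n + d) ^ 2 = n ^ 2 + (2 * d * n + d ^ 2) := by ring
  rw [e1, pow_add, mul_ap, LinearIsometry.inner_map_map, pow_add, pow_mul,
    mul_ap]

lemma inner_window (U : E →ₗᵢ[ℝ] E) (f : E)
    (hf : ∀ q, 1 ≤ q → ∀ x, (U ^ q) x = x → inner ℝ f x = 0) {ε : ℝ} (hε : 0 < ε) (h h' : ℕ)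
    (hne : h < h') : ∀ᶠ L : ℕ in atTop, ∀ M : ℕ,
      |∑ j ∈ range L, inner ℝ (vv U f (M + j + h)) (vv U f (M + j + h'))| ≤ ε * L := by
  obtain ⟨d, rfl⟩ := Nat.exists_eq_add_of_lt hne
  have h1 := window_inner (U ^ (2 * (d + 1))) f (fun x hx => hf _ (by omega) x hx)
    ((U ^ ((d + 1) ^ 2)) f) hε
  filter_upwards [h1] with L hL M
  have h2 := hL (M + h)
  refine le_trans (le_of_eq ?_) h2
  congr 1
  refine Finset.sum_congr rfl fun j _ => ?_
  have e1 : M + j + (h + d + 1) = (M + j + h) + (d + 1) := by ring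
  rw [e1, inner_vv]
  have e2 : M + h + j = M + j + h := by ring
  rw [e2]

/-- the averages over windows are small -/
theorem window_tot (U : E →ₗᵢ[ℝ] E) (f : E)
    (hf : ∀ q, 1 ≤ q → ∀ x, (U ^ q) x = x → inner ℝ f x = 0) {δ : ℝ} (hδ : 0 < δ) :
    ∀ᶠ L : ℕ in atTop, ∀ M : ℕ, ‖∑ j ∈ range L, vv U f (M + j)‖ ≤ δ * L := by
  obtain ⟨H1, hH1⟩ := exists_nat_ge (8 * ‖f‖ ^ 2 / δ ^ 2)
  obtain ⟨H, hH⟩ : ∃ H, H = H1 + 1 := ⟨_, rfl⟩
  have hH0 : (0 : ℝ) < H := by exact_mod_cast (by omega : 0 < H)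
  have hHf : 8 * ‖f‖ ^ 2 ≤ δ ^ 2 * H := by
    rw [div_le_iff₀ (by positivity)] at hH1
    have : (H1 : ℝ) ≤ H := by exact_mod_cast (by omega : H1 ≤ H)
    nlinarith [sq_nonneg δ, mul_le_mul_of_nonneg_right this (sq_nonneg δ)]
  have hall : ∀ᶠ L : ℕ in atTop, ∀ h ∈ range H, ∀ h' ∈ range H, h ≠ h' → ∀ M : ℕ,
      |∑ j ∈ range L, inner ℝ (vv U f (M + j + h)) (vv U f (M + j + h'))| ≤ δ ^ 2 / 8 * L := by
    rw [Filter.eventually_all_finset]
    intro h _
    rw [Filter.eventually_all_finset]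
    intro h' _
    rcases lt_trichotomy h h' with hlt | heq | hgt
    · filter_upwards [inner_window U f hf (show 0 < δ ^ 2 / 8 by positivity) h h' hlt] with L hL _
      exact hL
    · exact Filter.Eventually.of_forall fun L hc => absurd heq hc
    · filter_upwards [inner_window U f hf (show 0 < δ ^ 2 / 8 by positivity) h' h hgt] with L hL _ M
      refine le_trans (le_of_eq ?_) (hL M)
      congr 1
      exact Finset.sum_congr rfl fun j _ => real_inner_comm _ _
  obtain ⟨L1, hL1⟩ := exists_nat_ge (4 * H * ‖f‖ / δ)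
  filter_upwards [hall, eventually_ge_atTop L1, eventually_ge_atTop 1] with L hL hLL hLpos M
  have hL0 : (0 : ℝ) < L := by exact_mod_cast hLpos
  have hL2 : 4 * H * ‖f‖ ≤ δ * L := by
    rw [div_le_iff₀ hδ] at hL1
    have : (L1 : ℝ) ≤ L := by exact_mod_cast hLL
    nlinarith
  -- the double sum
  have hd1 : ‖∑ j ∈ range L, ∑ h ∈ range H, vv U f (M + j + h)‖ ≤ δ / 2 * L * H := by
    have e1 : ‖∑ j ∈ range L, ∑ h ∈ range H, vv U f (M + j + h)‖ ^ 2 ≤
        L * ∑ j ∈ range L, ‖∑ h ∈ range H, vv U f (M + j + h)‖ ^ 2 := by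
      calc _ ≤ (∑ j ∈ range L, ‖∑ h ∈ range H, vv U f (M + j + h)‖) ^ 2 :=
            pow_le_pow_left₀ (norm_nonneg _) (norm_sum_le _ _) 2
        _ ≤ ((range L).card : ℝ) * ∑ j ∈ range L, ‖∑ h ∈ range H, vv U f (M + j + h)‖ ^ 2 :=
            sq_sum_le_card_mul_sum_sq
        _ = _ := by rw [Finset.card_range]
    have e2 : ∑ j ∈ range L, ‖∑ h ∈ range H, vv U f (M + j + h)‖ ^ 2 =
        ∑ h ∈ range H, ∑ h' ∈ range H,
          ∑ j ∈ range L, inner ℝ (vv U f (M + j + h)) (vv U f (M + j + h')) := by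
      have g1 : ∀ j ∈ range L, ‖∑ h ∈ range H, vv U f (M + j + h)‖ ^ 2 =
          ∑ h ∈ range H, ∑ h' ∈ range H,
            inner ℝ (vv U f (M + j + h)) (vv U f (M + j + h')) := by
        intro j _
        rw [← real_inner_self_eq_norm_sq, sum_inner]
        refine Finset.sum_congr rfl fun h _ => ?_
        rw [inner_sum]
      rw [Finset.sum_congr rfl g1, Finset.sum_comm]
      refine Finset.sum_congr rfl fun h _ => ?_
      rw [Finset.sum_comm]
    have e3 : ∀ h ∈ range H, ∑ h' ∈ range H,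
        ∑ j ∈ range L, inner ℝ (vv U f (M + j + h)) (vv U f (M + j + h')) ≤
        L * ‖f‖ ^ 2 + H * (δ ^ 2 / 8 * L) := by
      intro h hh
      have g1 : ∀ h' ∈ range H,
          ∑ j ∈ range L, inner ℝ (vv U f (M + j + h)) (vv U f (M + j + h')) ≤
          (if h = h' then (L : ℝ) * ‖f‖ ^ 2 else 0) + δ ^ 2 / 8 * L := by
        intro h' hh'
        by_cases hc : h = h'
        · subst hc
          rw [if_pos rfl]
          have g2 : ∑ j ∈ range L, inner ℝ (vv U f (M + j + h)) (vv U f (M + j + h)) =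
              (L : ℝ) * ‖f‖ ^ 2 := by
            rw [Finset.sum_congr rfl fun j _ => by
              rw [real_inner_self_eq_norm_sq, norm_vv]]
            simp
          rw [g2]
          have : 0 ≤ δ ^ 2 / 8 * (L : ℝ) := by positivity
          linarith
        · rw [if_neg hc, zero_add]
          exact (le_abs_self _).trans (hL h hh h' hh' hc M)
      refine (Finset.sum_le_sum g1).trans (le_of_eq ?_)
      rw [Finset.sum_add_distrib, Finset.sum_ite_eq, if_pos hh, Finset.sum_const,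
        Finset.card_range, nsmul_eq_mul]
    have e4 : ∑ j ∈ range L, ‖∑ h ∈ range H, vv U f (M + j + h)‖ ^ 2 ≤
        H * (L * ‖f‖ ^ 2 + H * (δ ^ 2 / 8 * L)) := by
      rw [e2]
      refine (Finset.sum_le_sum e3).trans (le_of_eq ?_)
      rw [Finset.sum_const, Finset.card_range, nsmul_eq_mul]
    have e5 : ‖∑ j ∈ range L, ∑ h ∈ range H, vv U f (M + j + h)‖ ^ 2 ≤ (δ / 2 * L * H) ^ 2 := by
      refine e1.trans ((mul_le_mul_of_nonneg_left e4 hL0.le).trans ?_)
      have g1 : (L : ℝ) * (H * (L * ‖f‖ ^ 2 + H * (δ ^ 2 / 8 * L))) =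
          L ^ 2 * (H * ‖f‖ ^ 2 + H ^ 2 * (δ ^ 2 / 8)) := by ring
      have g2 : (δ / 2 * L * H) ^ 2 = L ^ 2 * (H ^ 2 * (δ ^ 2 / 4)) := by ring
      rw [g1, g2]
      refine mul_le_mul_of_nonneg_left ?_ (by positivity)
      have g3 : H * (8 * ‖f‖ ^ 2) ≤ H * (δ ^ 2 * H) := mul_le_mul_of_nonneg_left hHf hH0.le
      nlinarith
    exact (pow_le_pow_iff_left₀ (norm_nonneg _) (by positivity) two_ne_zero).1 e5
  have hd2 : ‖(H : ℝ) • ∑ j ∈ range L, vv U f (M + j) -
      ∑ j ∈ range L, ∑ h ∈ range H, vv U f (M + j + h)‖ ≤ H * (2 * H * ‖f‖) := by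
    have g1 : (H : ℝ) • ∑ j ∈ range L, vv U f (M + j) -
        ∑ j ∈ range L, ∑ h ∈ range H, vv U f (M + j + h) =
        ∑ h ∈ range H, (∑ j ∈ range L, vv U f (M + j) -
          ∑ j ∈ range L, vv U f (M + j + h)) := by
      rw [Finset.sum_sub_distrib, Finset.sum_const, Finset.card_range, Finset.sum_comm,
        Nat.cast_smul_eq_nsmul]
    rw [g1]
    refine (norm_sum_le _ _).trans ?_
    have g2 : ∀ h ∈ range H, ‖∑ j ∈ range L, vv U f (M + j) -
        ∑ j ∈ range L, vv U f (M + j + h)‖ ≤ 2 * H * ‖f‖ := by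
      intro h hh
      refine (shift_window (fun m => (norm_vv U f m).le) M L h).trans ?_
      have : (h : ℝ) ≤ H := by exact_mod_cast (Finset.mem_range.1 hh).le
      have g3 := mul_le_mul_of_nonneg_right this (norm_nonneg f)
      linarith
    refine (Finset.sum_le_sum g2).trans (le_of_eq ?_)
    rw [Finset.sum_const, Finset.card_range, nsmul_eq_mul]
  have hd3 : (H : ℝ) * ‖∑ j ∈ range L, vv U f (M + j)‖ ≤ H * (δ * L) := by
    have g1 : (H : ℝ) * ‖∑ j ∈ range L, vv U f (M + j)‖ =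
        ‖(H : ℝ) • ∑ j ∈ range L, vv U f (M + j)‖ := by
      rw [norm_smul, Real.norm_natCast]
    rw [g1]
    calc _ = ‖((H : ℝ) • ∑ j ∈ range L, vv U f (M + j) -
            ∑ j ∈ range L, ∑ h ∈ range H, vv U f (M + j + h)) +
            ∑ j ∈ range L, ∑ h ∈ range H, vv U f (M + j + h)‖ := by rw [sub_add_cancel]
      _ ≤ H * (2 * H * ‖f‖) + δ / 2 * L * H := (norm_add_le _ _).trans (add_le_add hd2 hd1)
      _ ≤ _ := by
          have g2 := mul_le_mul_of_nonneg_left hL2 hH0.le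
          nlinarith
  exact le_of_mul_le_mul_left hd3 hH0

lemma CW_of_tot (U : E →ₗᵢ[ℝ] E) (f : E)
    (hf : ∀ q, 1 ≤ q → ∀ x, (U ^ q) x = x → inner ℝ f x = 0) : CW U f := by
  intro ε hε
  obtain ⟨L0, hL0⟩ := eventually_atTop.1 (window_tot U f hf (show 0 < ε / 2 by positivity))
  have key : ∀ L ≥ max L0 1, ∀ M, ‖av U f M L‖ ≤ ε / 2 := by
    intro L hL M
    have hL1 : (0 : ℝ) < L := by
      have : 1 ≤ L := le_trans (le_max_right _ _) hL
      exact_mod_cast this
    unfold av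
    rw [norm_smul, norm_inv, Real.norm_natCast, inv_mul_le_iff₀ hL1]
    have := hL0 L (le_trans (le_max_left _ _) hL) M
    linarith
  refine ⟨max L0 1, le_max_right _ _, fun L hL L' hL' M M' => ?_⟩
  refine (norm_sub_le _ _).trans ?_
  have := key L hL M
  have := key L' hL' M'
  linarith

/-- every vector has `CW` -/
theorem CW_all (U : E →ₗᵢ[ℝ] E) (f : E) : CW U f := by
  obtain ⟨K, hK⟩ : ∃ K : Submodule ℝ E, K = (Submodule.span ℝ
    {x : E | ∃ q, 1 ≤ q ∧ (U ^ q) x = x}).topologicalClosure := ⟨_, rfl⟩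
  have hKc : IsClosed (K : Set E) := by rw [hK]; exact Submodule.isClosed_topologicalClosure _
  have : CompleteSpace K := hKc.completeSpace_coe
  have h1 : K ≤ CWS U := by
    rw [hK]
    refine Submodule.topologicalClosure_minimal _ ?_ (isClosed_CWS U)
    rw [Submodule.span_le]
    rintro x ⟨q, hq, hx⟩
    exact CW_of_period U hq hx
  have h2 : Kᗮ ≤ CWS U := by
    intro x hx
    refine CW_of_tot U x fun q hq y hy => ?_
    have hyK : y ∈ K := by
      rw [hK]
      exact Submodule.le_topologicalClosure _ (Submodule.subset_span ⟨q, hq, hy⟩)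
    exact Submodule.inner_left_of_mem_orthogonal hyK hx
  have h3 : K ⊔ Kᗮ = ⊤ := Submodule.sup_orthogonal_of_hasOrthogonalProjection
  have h4 : (⊤ : Submodule ℝ E) ≤ CWS U := by
    rw [← h3]
    exact sup_le h1 h2
  exact h4 (Submodule.mem_top)

/-- the averages over windows converge uniformly -/
theorem window_limit (U : E →ₗᵢ[ℝ] E) (f : E) : ∃ g : E, ∀ ε > 0, ∃ L0 : ℕ, 1 ≤ L0 ∧
    ∀ L ≥ L0, ∀ M : ℕ, ‖av U f M L - g‖ ≤ ε := by
  have h := CW_all U f
  have hc : CauchySeq (fun L => av U f 0 L) := by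
    rw [Metric.cauchySeq_iff']
    intro ε hε
    obtain ⟨L0, _, hL0⟩ := h (ε / 2) (by positivity)
    refine ⟨L0, fun L hL => ?_⟩
    rw [dist_eq_norm]
    have := hL0 L hL L0 le_rfl 0 0
    linarith
  obtain ⟨g, hg⟩ := cauchySeq_tendsto_of_complete hc
  refine ⟨g, fun ε hε => ?_⟩
  obtain ⟨L0, h1, hL0⟩ := h ε hε
  refine ⟨L0, h1, fun L hL M => ?_⟩
  have h2 : Tendsto (fun L' => ‖av U f M L - av U f 0 L'‖) atTop (𝓝 ‖av U f M L - g‖) :=
    (tendsto_const_nhds.sub hg).norm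
  refine le_of_tendsto h2 (eventually_atTop.2 ⟨L0, fun L' hL' => hL0 L hL L' hL' M 0⟩)

end Complete

end Pool.Agent.N476.FR
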