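import Mathlib

/-!
Summation by parts in `L²` for bounded functions.
-/

set_option autoImplicit false

namespace Pool.Agent.N476.FR

open Finset MeasureTheory
open scoped ENNReal

section

variable {X : Type*} [MeasurableSpace X] {μ : Measure X}

/-- the norm in `L²` -/
noncomputable def n2 (μ : Measure X) (f : X → ℝ) : ℝ := (eLpNorm f 2 μ).toReal

lemma n2_nonneg (f : X → ℝ) : 0 ≤ n2 μ f := ENNReal.toReal_nonneg

lemma n2_add {f g : X → ℝ} (hf : MemLp f 2 μ) (hg : MemLp g 2 μ) :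
    n2 μ (fun x => f x + g x) ≤ n2 μ f + n2 μ g := by
  unfold n2
  have h := eLpNorm_add_le hf.1 hg.1 (by norm_num : (1 : ℝ≥0∞) ≤ 2)
  rw [← ENNReal.toReal_add hf.2.ne hg.2.ne]
  exact ENNReal.toReal_mono (ENNReal.add_ne_top.2 ⟨hf.2.ne, hg.2.ne⟩) h

lemma n2_sum {ι : Type*} (s : Finset ι) (f : ι → X → ℝ) (hf : ∀ i ∈ s, MemLp (f i) 2 μ) :
    n2 μ (fun x => ∑ i ∈ s, f i x) ≤ ∑ i ∈ s, n2 μ (f i) := by
  classical
  induction s using Finset.induction_on with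
  | empty =>
    simp only [Finset.sum_empty]
    unfold n2
    simp
  | insert a s ha ih =>
    rw [Finset.sum_insert ha]
    have h1 : MemLp (fun x => ∑ i ∈ s, f i x) 2 μ :=
      memLp_finsetSum s fun i hi => hf i (Finset.mem_insert_of_mem hi)
    have h2 := n2_add (hf a (Finset.mem_insert_self _ _)) h1
    have h3 := ih fun i hi => hf i (Finset.mem_insert_of_mem hi)
    simp only [Finset.sum_insert ha]
    linarith

lemma n2_mul {f a : X → ℝ} (hf : MemLp f 2 μ) {A : ℝ} (hA : 0 ≤ A) (ha : ∀ x, |a x| ≤ A) :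
    n2 μ (fun x => a x * f x) ≤ A * n2 μ f := by
  unfold n2
  have h : eLpNorm (fun x => a x * f x) 2 μ ≤ ENNReal.ofReal A * eLpNorm f 2 μ := by
    refine eLpNorm_le_mul_eLpNorm_of_ae_le_mul (Filter.Eventually.of_forall fun x => ?_) 2
    rw [norm_mul]
    exact mul_le_mul_of_nonneg_right (ha x) (norm_nonneg _)
  have h2 := ENNReal.toReal_mono (ENNReal.mul_ne_top ENNReal.ofReal_ne_top hf.2.ne) h
  rwa [ENNReal.toReal_mul, ENNReal.toReal_ofReal hA] at h2

variable [IsProbabilityMeasure μ]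

lemma n2_bdd {f : X → ℝ} {A : ℝ} (hA : 0 ≤ A) (ha : ∀ x, |f x| ≤ A) : n2 μ f ≤ A := by
  unfold n2
  have h := eLpNorm_le_of_ae_bound (p := 2) (μ := μ) (f := f) (C := A)
    (Filter.Eventually.of_forall ha)
  rw [measure_univ, ENNReal.one_rpow, one_mul] at h
  have h2 := ENNReal.toReal_mono ENNReal.ofReal_ne_top h
  rwa [ENNReal.toReal_ofReal hA] at h2

lemma memLp_bdd {f : X → ℝ} (hf : Measurable f) {A : ℝ} (ha : ∀ x, |f x| ≤ A) : MemLp f 2 μ :=
  MemLp.of_bound hf.aestronglyMeasurable A (Filter.Eventually.of_forall ha)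

/-- one step of the shift -/
lemma shift_step {u Γ : ℕ → ℝ} {R : ℝ} (hR : ∀ m, |u m| ≤ R) {K : ℕ} {V : ℕ → ℝ}
    (hV : ∀ m, |Γ (m + 1) - Γ m| ≤ V m) (hK : Γ K = 0) (j : ℕ) :
    |∑ m ∈ range K, Γ m * u (m + j) - ∑ m ∈ range K, Γ m * u (m + (j + 1))| ≤
      R * (|Γ 0| + ∑ m ∈ range K, V m) := by
  have hR0 : 0 ≤ R := (abs_nonneg _).trans (hR 0)
  have e1 := Finset.sum_range_succ (fun m => Γ m * u (m + j)) K
  have e2 := Finset.sum_range_succ' (fun m => Γ m * u (m + j)) K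
  rw [e1, hK, zero_mul, add_zero] at e2
  have e3 : ∑ m ∈ range K, Γ m * u (m + j) - ∑ m ∈ range K, Γ m * u (m + (j + 1)) =
      ∑ m ∈ range K, (Γ (m + 1) - Γ m) * u (m + (j + 1)) + Γ 0 * u (0 + j) := by
    rw [e2]
    have e4 : ∑ m ∈ range K, Γ (m + 1) * u (m + 1 + j) =
        ∑ m ∈ range K, Γ (m + 1) * u (m + (j + 1)) :=
      Finset.sum_congr rfl fun m _ => by
        rw [show m + 1 + j = m + (j + 1) by ring]
    rw [e4, add_sub_right_comm, ← Finset.sum_sub_distrib]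
    congr 1
    exact Finset.sum_congr rfl fun m _ => by ring
  rw [e3]
  have e5 : |∑ m ∈ range K, (Γ (m + 1) - Γ m) * u (m + (j + 1))| ≤ R * ∑ m ∈ range K, V m := by
    refine (Finset.abs_sum_le_sum_abs _ _).trans ?_
    rw [Finset.mul_sum]
    refine Finset.sum_le_sum fun m _ => ?_
    rw [abs_mul, mul_comm R]
    exact mul_le_mul (hV m) (hR _) (abs_nonneg _) ((abs_nonneg _).trans (hV m))
  have e6 : |Γ 0 * u (0 + j)| ≤ R * |Γ 0| := by
    rw [abs_mul, mul_comm R]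
    exact mul_le_mul_of_nonneg_left (hR _) (abs_nonneg _)
  refine (abs_add_le _ _).trans ?_
  linarith

lemma shift_many {u Γ : ℕ → ℝ} {R : ℝ} (hR : ∀ m, |u m| ≤ R) {K : ℕ} {V : ℕ → ℝ}
    (hV : ∀ m, |Γ (m + 1) - Γ m| ≤ V m) (hK : Γ K = 0) (j : ℕ) :
    |∑ m ∈ range K, Γ m * u m - ∑ m ∈ range K, Γ m * u (m + j)| ≤
      j * (R * (|Γ 0| + ∑ m ∈ range K, V m)) := by
  induction j with
  | zero => simp
  | succ j ih =>
    have h1 := shift_step hR hV hK j
    calc _ ≤ |∑ m ∈ range K, Γ m * u m - ∑ m ∈ range K, Γ m * u (m + j)| +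
          |∑ m ∈ range K, Γ m * u (m + j) - ∑ m ∈ range K, Γ m * u (m + (j + 1))| :=
          abs_sub_le _ _ _
      _ ≤ j * (R * (|Γ 0| + ∑ m ∈ range K, V m)) + R * (|Γ 0| + ∑ m ∈ range K, V m) :=
          add_le_add ih h1
      _ = _ := by push_cast; ring

/-- summation by parts -/
theorem sum_parts {u Γ : ℕ → X → ℝ} (hu : ∀ m, Measurable (u m)) (hΓ : ∀ m, Measurable (Γ m))
    {R : ℝ} (hR : ∀ m x, |u m x| ≤ R) {K L : ℕ} (hL : 1 ≤ L) {G V : ℕ → ℝ}
    (hG : ∀ m x, |Γ m x| ≤ G m) (hV : ∀ m x, |Γ (m + 1) x - Γ m x| ≤ V m)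
    (hK : ∀ x, Γ K x = 0) {ε : ℝ}
    (hε : ∀ M, n2 μ (fun x => ∑ j ∈ range L, u (M + j) x) ≤ ε * L) :
    n2 μ (fun x => ∑ m ∈ range K, Γ m x * u m x) ≤
      ε * ∑ m ∈ range K, G m + L * (R * (G 0 + ∑ m ∈ range K, V m)) := by
  have hL0 : (0 : ℝ) < L := by exact_mod_cast hL
  obtain ⟨x0⟩ : Nonempty X := by
    by_contra hcon
    rw [not_nonempty_iff] at hcon
    have h1 : μ Set.univ = 1 := measure_univ
    rw [Set.univ_eq_empty_iff.2 hcon, measure_empty] at h1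
    exact zero_ne_one h1
  have hR0 : 0 ≤ R := (abs_nonneg _).trans (hR 0 x0)
  have hG0 : ∀ m, 0 ≤ G m := fun m => (abs_nonneg _).trans (hG m x0)
  have hV0 : ∀ m, 0 ≤ V m := fun m => (abs_nonneg _).trans (hV m x0)
  -- windows
  obtain ⟨w, hw⟩ : ∃ w : ℕ → X → ℝ, w = fun m x => ∑ j ∈ range L, u (m + j) x := ⟨_, rfl⟩
  have hwm : ∀ m, Measurable (w m) := by
    intro m; rw [hw]; exact Finset.measurable_fun_sum _ fun j _ => hu _
  have hwb : ∀ m x, |w m x| ≤ L * R := by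
    intro m x
    rw [hw]
    refine (Finset.abs_sum_le_sum_abs _ _).trans ((Finset.sum_le_sum fun j _ => hR _ x).trans ?_)
    simp
  have hwp : ∀ m, MemLp (w m) 2 μ := fun m => memLp_bdd (hwm m) (hwb m)
  have hwn : ∀ m, n2 μ (w m) ≤ ε * L := by
    intro m; rw [hw]; exact hε m
  -- the decomposition
  obtain ⟨A, hA⟩ : ∃ A : X → ℝ, A = fun x => ∑ m ∈ range K, ((L : ℝ)⁻¹ * Γ m x) * w m x :=
    ⟨_, rfl⟩
  obtain ⟨E, hE⟩ : ∃ E : X → ℝ, E = fun x => ∑ m ∈ range K, Γ m x * u m x - A x := ⟨_, rfl⟩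
  have hAE : (fun x => ∑ m ∈ range K, Γ m x * u m x) = fun x => A x + E x := by
    funext x; rw [hE]; ring
  have hterm : ∀ m, ∀ x, |((L : ℝ)⁻¹ * Γ m x)| ≤ (L : ℝ)⁻¹ * G m := by
    intro m x
    rw [abs_mul, abs_of_nonneg (inv_nonneg.2 hL0.le)]
    exact mul_le_mul_of_nonneg_left (hG m x) (inv_nonneg.2 hL0.le)
  have hAterm : ∀ m ∈ range K, MemLp (fun x => ((L : ℝ)⁻¹ * Γ m x) * w m x) 2 μ := by
    intro m _
    refine memLp_bdd (((hΓ m).const_mul _).mul (hwm m)) (A := (L : ℝ)⁻¹ * G m * (L * R)) ?_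
    intro x
    rw [abs_mul]
    exact mul_le_mul (hterm m x) (hwb m x) (abs_nonneg _)
      (mul_nonneg (inv_nonneg.2 hL0.le) (hG0 m))
  have hAm : MemLp A 2 μ := by rw [hA]; exact memLp_finsetSum _ hAterm
  have hAn : n2 μ A ≤ ε * ∑ m ∈ range K, G m := by
    rw [hA]
    refine (n2_sum _ _ hAterm).trans ?_
    rw [Finset.mul_sum]
    refine Finset.sum_le_sum fun m _ => ?_
    refine (n2_mul (hwp m) (mul_nonneg (inv_nonneg.2 hL0.le) (hG0 m)) (hterm m)).trans ?_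
    calc _ ≤ (L : ℝ)⁻¹ * G m * (ε * L) :=
          mul_le_mul_of_nonneg_left (hwn m) (mul_nonneg (inv_nonneg.2 hL0.le) (hG0 m))
      _ = ε * G m := by field_simp
  have hEb : ∀ x, |E x| ≤ L * (R * (G 0 + ∑ m ∈ range K, V m)) := by
    intro x
    have e1 : E x = (L : ℝ)⁻¹ * ∑ j ∈ range L, (∑ m ∈ range K, Γ m x * u m x -
        ∑ m ∈ range K, Γ m x * u (m + j) x) := by
      rw [Finset.sum_sub_distrib, Finset.sum_const, Finset.card_range, nsmul_eq_mul, mul_sub,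
        ← mul_assoc, inv_mul_cancel₀ hL0.ne', one_mul, hE, hA, hw]
      simp only
      congr 1
      rw [Finset.sum_comm, Finset.mul_sum]
      refine Finset.sum_congr rfl fun m _ => ?_
      rw [Finset.mul_sum, Finset.mul_sum]
      exact Finset.sum_congr rfl fun j _ => by ring
    rw [e1, abs_mul, abs_of_nonneg (inv_nonneg.2 hL0.le), inv_mul_le_iff₀ hL0]
    refine (Finset.abs_sum_le_sum_abs _ _).trans ?_
    have e2 : ∀ j ∈ range L, |∑ m ∈ range K, Γ m x * u m x -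
        ∑ m ∈ range K, Γ m x * u (m + j) x| ≤ L * (R * (G 0 + ∑ m ∈ range K, V m)) := by
      intro j hj
      have hj' : (j : ℝ) ≤ L := by exact_mod_cast (Finset.mem_range.1 hj).le
      refine (shift_many (u := fun m => u m x) (Γ := fun m => Γ m x) (fun m => hR m x)
        (fun m => hV m x) (hK x) j).trans ?_
      have hs : 0 ≤ ∑ m ∈ range K, V m := Finset.sum_nonneg fun m _ => hV0 m
      refine mul_le_mul hj' ?_ (mul_nonneg hR0 (add_nonneg (abs_nonneg _) hs)) hL0.le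
      exact mul_le_mul_of_nonneg_left (add_le_add (hG 0 x) le_rfl) hR0
    refine (Finset.sum_le_sum e2).trans (le_of_eq ?_)
    rw [Finset.sum_const, Finset.card_range, nsmul_eq_mul]
  have hEm : MemLp E 2 μ := by
    have h1 : Measurable E := by
      rw [hE, hA]
      refine (Finset.measurable_fun_sum _ fun m _ => (hΓ m).mul (hu m)).sub
        (Finset.measurable_fun_sum _ fun m _ => ((hΓ m).const_mul _).mul (hwm m))
    exact memLp_bdd h1 hEb
  have hnn : 0 ≤ L * (R * (G 0 + ∑ m ∈ range K, V m)) :=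
    mul_nonneg hL0.le (mul_nonneg hR0 (add_nonneg (hG0 0) (Finset.sum_nonneg fun m _ => hV0 m)))
  rw [hAE]
  refine (n2_add hAm hEm).trans (add_le_add hAn (n2_bdd hnn hEb))

end

end Pool.Agent.N476.FR
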