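import Pool.Agent.N476.FR.B

/-!
Level sets of `⌊n ^ c⌋` for `0 < c < 1`.
-/

set_option autoImplicit false

namespace Pool.Agent.N476.FR

open Finset MeasureTheory

/-- `⌊n ^ c⌋` -/
noncomputable def ph (c : ℝ) (n : ℕ) : ℕ := ⌊(n : ℝ) ^ c⌋₊

/-- the first `n` with `⌊n ^ c⌋ = m` -/
noncomputable def PP (c : ℝ) (m : ℕ) : ℕ := ⌈(m : ℝ) ^ (1 / c)⌉₊

/-- the differences of the powers -/
noncomputable def De (c : ℝ) (m : ℕ) : ℝ := ((m : ℝ) + 1) ^ (1 / c) - (m : ℝ) ^ (1 / c)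

section

variable {c : ℝ} (hc : 0 < c) (hc1 : c < 1)

include hc

lemma PP_zero : PP c 0 = 0 := by
  unfold PP
  rw [Nat.cast_zero, Real.zero_rpow (by positivity), Nat.ceil_zero]

lemma PP_mono : Monotone (PP c) := by
  intro a b h
  unfold PP
  refine Nat.ceil_mono (Real.rpow_le_rpow (by positivity) ?_ (by positivity))
  exact_mod_cast h

lemma ph_mono : Monotone (ph c) := by
  intro a b h
  unfold ph
  refine Nat.floor_mono (Real.rpow_le_rpow (by positivity) ?_ hc.le)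
  exact_mod_cast h

lemma PP_le_iff (m n : ℕ) : PP c m ≤ n ↔ m ≤ ph c n := by
  unfold PP ph
  rw [Nat.ceil_le, Nat.le_floor_iff (by positivity)]
  constructor
  · intro h
    have h1 := Real.rpow_le_rpow (by positivity) h hc.le
    rwa [← Real.rpow_mul (by positivity), one_div, inv_mul_cancel₀ hc.ne', Real.rpow_one] at h1
  · intro h
    have h1 := Real.rpow_le_rpow (by positivity) h (show 0 ≤ 1 / c by positivity)
    rwa [← Real.rpow_mul (by positivity), mul_one_div, div_self hc.ne', Real.rpow_one] at h1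

lemma ph_eq (m n : ℕ) (h1 : PP c m ≤ n) (h2 : n < PP c (m + 1)) : ph c n = m := by
  have e1 := (PP_le_iff hc m n).1 h1
  have e2 : ¬ (m + 1 ≤ ph c n) := fun h => by
    have := (PP_le_iff hc (m + 1) n).2 h
    omega
  omega

include hc1

lemma De_mono (m : ℕ) : De c m ≤ De c (m + 1) := by
  have hp : 1 ≤ 1 / c := by rw [le_div_iff₀ hc]; linarith
  have h := (convexOn_rpow hp).2 (Set.mem_Ici.2 (show (0 : ℝ) ≤ (m : ℝ) by positivity))
    (Set.mem_Ici.2 (show (0 : ℝ) ≤ (m : ℝ) + 2 by positivity))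
    (show (0 : ℝ) ≤ 1 / 2 by norm_num) (show (0 : ℝ) ≤ 1 / 2 by norm_num) (by norm_num)
  simp only [smul_eq_mul] at h
  have e1 : (1 / 2 : ℝ) * m + 1 / 2 * (m + 2) = m + 1 := by ring
  rw [e1] at h
  unfold De
  push_cast
  have e2 : (m : ℝ) + 1 + 1 = m + 2 := by ring
  rw [e2]
  linarith

lemma De_nonneg (m : ℕ) : 0 ≤ De c m := by
  unfold De
  rw [sub_nonneg]
  exact Real.rpow_le_rpow (by positivity) (by linarith) (by positivity)

lemma De_mono' {m K : ℕ} (h : m ≤ K) : De c m ≤ De c K :=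
  monotone_nat_of_le_succ (De_mono hc hc1) h

lemma De_upper (K : ℕ) : De c K ≤ 1 / c * ((K : ℝ) + 1) ^ (1 / c - 1) := by
  have hp : 1 ≤ 1 / c := by rw [le_div_iff₀ hc]; linarith
  have hK : (0 : ℝ) < (K : ℝ) + 1 := by positivity
  have h := one_add_mul_self_le_rpow_one_add (s := -(1 / ((K : ℝ) + 1)))
    (by rw [neg_le_neg_iff, div_le_one hK]; linarith [Nat.cast_nonneg (α := ℝ) K]) hp
  have e1 : 1 + -(1 / ((K : ℝ) + 1)) = K / (K + 1) := by field_simp; ring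
  rw [e1, Real.div_rpow (by positivity) hK.le] at h
  have hK2 : 0 < ((K : ℝ) + 1) ^ (1 / c) := Real.rpow_pos_of_pos hK _
  rw [le_div_iff₀ hK2] at h
  unfold De
  have e2 : ((K : ℝ) + 1) ^ (1 / c - 1) = ((K : ℝ) + 1) ^ (1 / c) / (K + 1) := by
    rw [Real.rpow_sub hK, Real.rpow_one]
  rw [e2]
  have e3 : (1 + 1 / c * -(1 / ((K : ℝ) + 1))) * ((K : ℝ) + 1) ^ (1 / c) =
      ((K : ℝ) + 1) ^ (1 / c) - 1 / c * (((K : ℝ) + 1) ^ (1 / c) / (K + 1)) := by
    field_simp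
    ring
  linarith

/-- the length of a level set -/
noncomputable def wl (c : ℝ) (m : ℕ) : ℕ := PP c (m + 1) - PP c m

lemma wl_cast (m : ℕ) : (wl c m : ℝ) = PP c (m + 1) - PP c m := by
  unfold wl
  rw [Nat.cast_sub (PP_mono hc (Nat.le_succ m))]

lemma PP_bound (m : ℕ) : (m : ℝ) ^ (1 / c) ≤ PP c m ∧ (PP c m : ℝ) < (m : ℝ) ^ (1 / c) + 1 := by
  unfold PP
  exact ⟨Nat.le_ceil _, Nat.ceil_lt_add_one (by positivity)⟩

lemma wl_bound (m : ℕ) : |(wl c m : ℝ) - De c m| ≤ 1 := by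
  rw [wl_cast hc hc1]
  obtain ⟨h1, h2⟩ := PP_bound hc hc1 m
  obtain ⟨h3, h4⟩ := PP_bound hc hc1 (m + 1)
  push_cast at h3 h4
  unfold De
  rw [abs_le]
  constructor <;> linarith

lemma wl_diff (m : ℕ) : |(wl c (m + 1) : ℝ) - wl c m| ≤ 2 + (De c (m + 1) - De c m) := by
  have h1 := abs_le.1 (wl_bound hc hc1 m)
  have h2 := abs_le.1 (wl_bound hc hc1 (m + 1))
  have h3 := De_mono hc hc1 m
  rw [abs_le]
  constructor <;> linarith

lemma wl_le {m K : ℕ} (h : m ≤ K) : (wl c m : ℝ) ≤ De c K + 1 := by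
  have h1 := abs_le.1 (wl_bound hc hc1 m)
  have h2 := De_mono' hc hc1 h
  linarith

lemma sum_wl_diff (K : ℕ) : ∑ m ∈ range K, |(wl c (m + 1) : ℝ) - wl c m| ≤ 2 * K + De c K := by
  refine (Finset.sum_le_sum fun m _ => wl_diff hc hc1 m).trans ?_
  rw [Finset.sum_add_distrib, Finset.sum_const, Finset.card_range, nsmul_eq_mul,
    Finset.sum_range_sub (fun m => De c m)]
  have := De_nonneg hc hc1 0
  linarith

end

/-- sums over the level sets -/
lemma sum_levels {M : Type*} [AddCommMonoid M] {P : ℕ → ℕ} (hP : Monotone P) (h0 : P 0 = 0)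
    (F : ℕ → M) (K : ℕ) :
    ∑ n ∈ range (P K), F n = ∑ m ∈ range K, ∑ n ∈ Ico (P m) (P (m + 1)), F n := by
  induction K with
  | zero => simp [h0]
  | succ K ih =>
    rw [Finset.sum_range_succ, ← ih, Finset.sum_range_add_sum_Ico _ (hP (Nat.le_succ K))]

end Pool.Agent.N476.FR
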