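import Pool.Agent.N476.FR.C

/-!
The averages of `β_n u_⌊n ^ c⌋` for slowly varying `β`.
-/

set_option autoImplicit false

namespace Pool.Agent.N476.FR

open Finset MeasureTheory Filter Topology

section

variable {X : Type*} [MeasurableSpace X] {μ : Measure X} [IsProbabilityMeasure μ]

lemma drift {b d : ℕ → ℝ} (hd : ∀ n, |b (n + 1) - b n| ≤ d n) {p n q : ℕ} (h1 : p ≤ n)
    (h2 : n ≤ q) : |b n - b p| ≤ ∑ i ∈ Ico p q, d i := by
  have hd0 : ∀ n, 0 ≤ d n := fun n => (abs_nonneg _).trans (hd n)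
  have e1 : |b n - b p| ≤ ∑ i ∈ Ico p n, d i := by
    rw [← Finset.sum_Ico_sub b h1]
    exact (Finset.abs_sum_le_sum_abs _ _).trans (Finset.sum_le_sum fun i _ => hd i)
  exact e1.trans (Finset.sum_le_sum_of_subset_of_nonneg
    (Finset.Ico_subset_Ico le_rfl h2) fun _ _ _ => hd0 _)

/-- comparison of the sums over two consecutive intervals -/
lemma two_levels {b d : ℕ → ℝ} (hd : ∀ n, |b (n + 1) - b n| ≤ d n) {D : ℝ} (hD : ∀ n, |b n| ≤ D)
    {p q r : ℕ} (h1 : p ≤ q) (h2 : q ≤ r) {W : ℝ} (hW1 : ((q - p : ℕ) : ℝ) ≤ W)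
    (hW2 : ((r - q : ℕ) : ℝ) ≤ W) :
    |∑ n ∈ Ico q r, b n - ∑ n ∈ Ico p q, b n| ≤
      W * (∑ i ∈ Ico q r, d i) + 2 * W * (∑ i ∈ Ico p q, d i) +
        D * |((r - q : ℕ) : ℝ) - ((q - p : ℕ) : ℝ)| := by
  have hd0 : ∀ n, 0 ≤ d n := fun n => (abs_nonneg _).trans (hd n)
  have hs1 : 0 ≤ ∑ i ∈ Ico p q, d i := Finset.sum_nonneg fun i _ => hd0 i
  have hs2 : 0 ≤ ∑ i ∈ Ico q r, d i := Finset.sum_nonneg fun i _ => hd0 i
  have hW0 : 0 ≤ W := le_trans (Nat.cast_nonneg _) hW1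
  have key : ∀ p q : ℕ, p ≤ q → ((q - p : ℕ) : ℝ) ≤ W →
      |∑ n ∈ Ico p q, b n - ((q - p : ℕ) : ℝ) * b p| ≤ W * ∑ i ∈ Ico p q, d i := by
    intro p q hpq hW
    have e1 : ∑ n ∈ Ico p q, b n - ((q - p : ℕ) : ℝ) * b p = ∑ n ∈ Ico p q, (b n - b p) := by
      rw [Finset.sum_sub_distrib, Finset.sum_const, Nat.card_Ico, nsmul_eq_mul]
    rw [e1]
    refine (Finset.abs_sum_le_sum_abs _ _).trans ?_
    have e2 : ∀ n ∈ Ico p q, |b n - b p| ≤ ∑ i ∈ Ico p q, d i := by
      intro n hn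
      rw [Finset.mem_Ico] at hn
      exact drift hd hn.1 hn.2.le
    refine (Finset.sum_le_sum e2).trans ?_
    rw [Finset.sum_const, Nat.card_Ico, nsmul_eq_mul]
    exact mul_le_mul_of_nonneg_right hW (Finset.sum_nonneg fun i _ => hd0 i)
  have k1 := key p q h1 hW1
  have k2 := key q r h2 hW2
  have k3 : |((q - p : ℕ) : ℝ) * (b q - b p)| ≤ W * ∑ i ∈ Ico p q, d i := by
    rw [abs_mul, abs_of_nonneg (Nat.cast_nonneg _)]
    exact mul_le_mul hW1 (drift hd h1 le_rfl) (abs_nonneg _) hW0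
  have k4 : |(((r - q : ℕ) : ℝ) - ((q - p : ℕ) : ℝ)) * b q| ≤
      D * |((r - q : ℕ) : ℝ) - ((q - p : ℕ) : ℝ)| := by
    rw [abs_mul, mul_comm D]
    exact mul_le_mul_of_nonneg_left (hD q) (abs_nonneg _)
  have e : ∑ n ∈ Ico q r, b n - ∑ n ∈ Ico p q, b n =
      (∑ n ∈ Ico q r, b n - ((r - q : ℕ) : ℝ) * b q) -
      (∑ n ∈ Ico p q, b n - ((q - p : ℕ) : ℝ) * b p) +
      ((q - p : ℕ) : ℝ) * (b q - b p) + (((r - q : ℕ) : ℝ) - ((q - p : ℕ) : ℝ)) * b q := by ring
  rw [e]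
  refine (abs_add_le _ _).trans ?_
  refine (add_le_add (abs_add_le _ _) le_rfl).trans ?_
  have k5 := abs_sub (∑ n ∈ Ico q r, b n - ((r - q : ℕ) : ℝ) * b q)
    (∑ n ∈ Ico p q, b n - ((q - p : ℕ) : ℝ) * b p)
  linarith

theorem block_bound {c : ℝ} (hc : 0 < c) (hc1 : c < 1) {u β : ℕ → X → ℝ}
    (hu : ∀ m, Measurable (u m)) (hβ : ∀ n, Measurable (β n)) {R D : ℝ}
    (hR : ∀ m x, |u m x| ≤ R) (hD : ∀ n x, |β n x| ≤ D) {d : ℕ → ℝ}
    (hd : ∀ n x, |β (n + 1) x - β n x| ≤ d n) {L : ℕ} (hL : 1 ≤ L) {ε : ℝ} (hε0 : 0 ≤ ε)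
    (hε : ∀ M, n2 μ (fun x => ∑ j ∈ range L, u (M + j) x) ≤ ε * L) (N : ℕ) :
    n2 μ (fun x => ∑ n ∈ range N, β n x * u (ph c n) x) ≤
      ε * (D * N) + L * (R * (3 * (De c (ph c N) + 1) * ∑ n ∈ range N, d n +
        D * (2 * ph c N + De c (ph c N)) + 2 * D * (De c (ph c N) + 1))) +
        D * R * (De c (ph c N) + 1) := by
  obtain ⟨x0⟩ : Nonempty X := by
    by_contra hcon
    rw [not_nonempty_iff] at hcon
    have h1 : μ Set.univ = 1 := measure_univ
    rw [Set.univ_eq_empty_iff.2 hcon, measure_empty] at h1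
    exact zero_ne_one h1
  have hR0 : 0 ≤ R := (abs_nonneg _).trans (hR 0 x0)
  have hD0 : 0 ≤ D := (abs_nonneg _).trans (hD 0 x0)
  have hd0 : ∀ n, 0 ≤ d n := fun n => (abs_nonneg _).trans (hd n x0)
  obtain ⟨K, hK⟩ : ∃ K, K = ph c N := ⟨_, rfl⟩
  rw [← hK]
  obtain ⟨W, hW⟩ : ∃ W, W = De c K + 1 := ⟨_, rfl⟩
  rw [← hW]
  have hW0 : 0 ≤ W := by rw [hW]; linarith [De_nonneg hc hc1 K]
  have hPK : PP c K ≤ N := (PP_le_iff hc K N).2 (by rw [hK])
  have hPK1 : N < PP c (K + 1) := by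
    by_contra hcon
    have := (PP_le_iff hc (K + 1) N).1 (not_lt.1 hcon)
    omega
  have hmono : Monotone (PP c) := PP_mono hc
  have hwW : ∀ m, m ≤ K → ((PP c (m + 1) - PP c m : ℕ) : ℝ) ≤ W := by
    intro m hm
    rw [hW]
    exact wl_le hc hc1 hm
  -- the coefficients
  obtain ⟨Γ, hΓ⟩ : ∃ Γ : ℕ → X → ℝ, Γ = fun m x =>
    if m < K then ∑ n ∈ Ico (PP c m) (PP c (m + 1)), β n x else 0 := ⟨_, rfl⟩
  obtain ⟨g, hg⟩ : ∃ g : ℕ → ℝ, g = fun m =>
    if m < K then ∑ n ∈ Ico (PP c m) (PP c (m + 1)), d n else 0 := ⟨_, rfl⟩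
  have hg0 : ∀ m, 0 ≤ g m := by
    intro m; rw [hg]; simp only
    split_ifs
    · exact Finset.sum_nonneg fun i _ => hd0 i
    · exact le_rfl
  obtain ⟨V, hV⟩ : ∃ V : ℕ → ℝ, V = fun m => W * g (m + 1) + 2 * W * g m +
    D * |(wl c (m + 1) : ℝ) - wl c m| + (if m + 1 = K then D * W else 0) := ⟨_, rfl⟩
  obtain ⟨G, hG⟩ : ∃ G : ℕ → ℝ, G = fun m => if m < K then D * (wl c m : ℝ) else 0 := ⟨_, rfl⟩
  have hΓm : ∀ m, Measurable (Γ m) := by
    intro m
    rw [hΓ]
    by_cases h : m < K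
    · simp only [h, if_true]
      exact Finset.measurable_fun_sum _ fun n _ => hβ n
    · simp only [h, if_false]
      exact measurable_const
  have hsumβ : ∀ m x, |∑ n ∈ Ico (PP c m) (PP c (m + 1)), β n x| ≤ D * (wl c m : ℝ) := by
    intro m x
    refine (Finset.abs_sum_le_sum_abs _ _).trans ((Finset.sum_le_sum fun n _ => hD n x).trans ?_)
    rw [Finset.sum_const, Nat.card_Ico, nsmul_eq_mul, mul_comm]
    exact le_rfl
  have hΓG : ∀ m x, |Γ m x| ≤ G m := by
    intro m x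
    rw [hΓ, hG]
    simp only
    split_ifs
    · exact hsumβ m x
    · simp
  have hVif : ∀ m, 0 ≤ (if m + 1 = K then D * W else 0) := by
    intro m; split_ifs <;> positivity
  have hΓV : ∀ m x, |Γ (m + 1) x - Γ m x| ≤ V m := by
    intro m x
    have hp1 : 0 ≤ W * g (m + 1) := mul_nonneg hW0 (hg0 _)
    have hp2 : 0 ≤ 2 * W * g m := mul_nonneg (by positivity) (hg0 _)
    have hp3 : 0 ≤ D * |(wl c (m + 1) : ℝ) - wl c m| := mul_nonneg hD0 (abs_nonneg _)
    rcases lt_trichotomy (m + 1) K with h | h | h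
    · have hm : m < K := by omega
      have h3 := two_levels (b := fun n => β n x) (d := d) (fun n => hd n x) (D := D)
        (fun n => hD n x) (hmono (Nat.le_succ m)) (hmono (Nat.le_succ (m + 1)))
        (hwW m hm.le) (hwW (m + 1) h.le)
      rw [hΓ, hV, hg]
      simp only [h, hm, if_true]
      rw [if_neg (by omega), add_zero]
      exact h3
    · have hm : m < K := by omega
      rw [hV]
      simp only
      rw [if_pos h]
      have h4 : |Γ (m + 1) x - Γ m x| ≤ D * W := by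
        rw [hΓ]
        simp only
        rw [if_neg (by omega), if_pos hm, zero_sub, abs_neg]
        exact (hsumβ m x).trans (mul_le_mul_of_nonneg_left (hwW m hm.le) hD0)
      linarith
    · have h4 : Γ (m + 1) x - Γ m x = 0 := by
        rw [hΓ]
        simp only
        rw [if_neg (by omega), if_neg (by omega), sub_zero]
      rw [h4, abs_zero, hV]
      simp only
      have := hVif m
      linarith
  have hΓK : ∀ x, Γ K x = 0 := by
    intro x; rw [hΓ]; simp
  have hmain := sum_parts (μ := μ) hu hΓm hR hL hΓG hΓV hΓK hε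
  -- sums of G and V
  have hGsum : ∑ m ∈ range K, G m ≤ D * N := by
    have e1 : ∑ m ∈ range K, G m = ∑ m ∈ range K, D * ((PP c (m + 1) : ℝ) - PP c m) := by
      refine Finset.sum_congr rfl fun m hm => ?_
      rw [hG]
      simp only
      rw [if_pos (Finset.mem_range.1 hm), wl_cast hc hc1]
    rw [e1, ← Finset.mul_sum, Finset.sum_range_sub (fun m => (PP c m : ℝ))]
    refine mul_le_mul_of_nonneg_left ?_ hD0
    rw [PP_zero hc, Nat.cast_zero, sub_zero]
    exact_mod_cast hPK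
  have hgsum : ∑ m ∈ range K, g m ≤ ∑ n ∈ range N, d n := by
    have e1 : ∑ m ∈ range K, g m = ∑ n ∈ range (PP c K), d n := by
      rw [sum_levels hmono (PP_zero hc) d K]
      refine Finset.sum_congr rfl fun m hm => ?_
      rw [hg]
      simp only
      rw [if_pos (Finset.mem_range.1 hm)]
    rw [e1]
    refine Finset.sum_le_sum_of_subset_of_nonneg ?_ fun _ _ _ => hd0 _
    intro a ha
    rw [Finset.mem_range] at ha ⊢
    omega
  have hgsum1 : ∑ m ∈ range K, g (m + 1) ≤ ∑ m ∈ range K, g m := by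
    have e1 := Finset.sum_range_succ g K
    have e2 := Finset.sum_range_succ' g K
    have e3 : g K = 0 := by rw [hg]; simp
    have e4 := hg0 0
    linarith
  have hVsum : ∑ m ∈ range K, V m ≤ 3 * W * ∑ n ∈ range N, d n + D * (2 * K + De c K) + D * W := by
    rw [hV]
    rw [Finset.sum_add_distrib, Finset.sum_add_distrib, Finset.sum_add_distrib, ← Finset.mul_sum,
      ← Finset.mul_sum, ← Finset.mul_sum]
    have e1 := mul_le_mul_of_nonneg_left (sum_wl_diff hc hc1 K) hD0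
    have e2 := mul_le_mul_of_nonneg_left (hgsum1.trans hgsum) hW0
    have e3 := mul_le_mul_of_nonneg_left hgsum hW0
    have e4 : ∑ m ∈ range K, (if m + 1 = K then D * W else 0) ≤ D * W := by
      rcases Nat.eq_zero_or_pos K with h | h
      · subst h; simp only [Finset.range_zero, Finset.sum_empty]; positivity
      · have : ∀ m ∈ range K, (if m + 1 = K then D * W else 0) =
            if m = K - 1 then D * W else 0 := by
          intro m _
          congr 1
          exact propext ⟨fun h => by omega, fun h => by omega⟩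
        rw [Finset.sum_congr rfl this, Finset.sum_ite_eq']
        split_ifs
        · exact le_rfl
        · positivity
    linarith
  have hG0 : G 0 ≤ D * W := by
    rw [hG]
    simp only
    split_ifs
    · exact mul_le_mul_of_nonneg_left (hwW 0 (Nat.zero_le _)) hD0
    · positivity
  -- the rest
  obtain ⟨A, hA⟩ : ∃ A : X → ℝ, A = fun x => ∑ m ∈ range K, Γ m x * u m x := ⟨_, rfl⟩
  obtain ⟨B, hB⟩ : ∃ B : X → ℝ, B = fun x => ∑ n ∈ Ico (PP c K) N, β n x * u (ph c n) x := ⟨_, rfl⟩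
  have hAB : (fun x => ∑ n ∈ range N, β n x * u (ph c n) x) = fun x => A x + B x := by
    funext x
    rw [hA, hB]
    simp only
    rw [← Finset.sum_range_add_sum_Ico _ hPK, sum_levels hmono (PP_zero hc) _ K]
    congr 1
    refine Finset.sum_congr rfl fun m hm => ?_
    rw [hΓ]
    simp only
    rw [if_pos (Finset.mem_range.1 hm), Finset.sum_mul]
    refine Finset.sum_congr rfl fun n hn => ?_
    rw [Finset.mem_Ico] at hn
    rw [ph_eq hc m n hn.1 hn.2]
  have hβu : ∀ n x, |β n x * u (ph c n) x| ≤ D * R := by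
    intro n x
    rw [abs_mul]
    exact mul_le_mul (hD n x) (hR _ x) (abs_nonneg _) hD0
  have hBb : ∀ x, |B x| ≤ D * R * W := by
    intro x
    rw [hB]
    refine (Finset.abs_sum_le_sum_abs _ _).trans ((Finset.sum_le_sum fun n _ => hβu n x).trans ?_)
    rw [Finset.sum_const, Nat.card_Ico, nsmul_eq_mul, mul_comm]
    refine mul_le_mul_of_nonneg_left ?_ (by positivity)
    refine le_trans ?_ (hwW K le_rfl)
    exact_mod_cast (by omega : N - PP c K ≤ PP c (K + 1) - PP c K)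
  have hBm : MemLp B 2 μ := by
    refine memLp_bdd ?_ hBb
    rw [hB]
    exact Finset.measurable_fun_sum _ fun n _ => (hβ n).mul (hu _)
  have hAm : MemLp A 2 μ := by
    rw [hA]
    refine memLp_finsetSum _ fun m _ => ?_
    refine memLp_bdd ((hΓm m).mul (hu m)) (A := G m * R) fun x => ?_
    rw [abs_mul]
    exact mul_le_mul (hΓG m x) (hR m x) (abs_nonneg _) ((abs_nonneg _).trans (hΓG m x))
  rw [hAB]
  refine (n2_add hAm hBm).trans (add_le_add ?_ (n2_bdd (by positivity) hBb))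
  rw [hA]
  refine hmain.trans (add_le_add (mul_le_mul_of_nonneg_left hGsum hε0) ?_)
  refine mul_le_mul_of_nonneg_left (mul_le_mul_of_nonneg_left ?_ hR0) (Nat.cast_nonneg L)
  linarith

end

end Pool.Agent.N476.FR
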