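import Pool.Agent.N476.FR.D

/-!
The averages of `β_n u_⌊n ^ c⌋` for slowly varying `β` tend to zero.
-/

set_option autoImplicit false

namespace Pool.Agent.N476.FR

open Finset MeasureTheory Filter Topology

lemma ph_le {c : ℝ} (hc : 0 < c) (N : ℕ) : (ph c N : ℝ) ≤ (N : ℝ) ^ c :=
  Nat.floor_le (by positivity)

lemma De_size {c : ℝ} (hc : 0 < c) (hc1 : c < 1) : ∃ C : ℝ, 0 < C ∧ ∀ N : ℕ, 1 ≤ N →
    De c (ph c N) + 1 ≤ C * (N : ℝ) ^ (1 - c) := by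
  refine ⟨1 / c * 2 ^ (1 / c - 1) + 1, by positivity, fun N hN => ?_⟩
  have hN1 : (1 : ℝ) ≤ N := by exact_mod_cast hN
  have hN0 : (0 : ℝ) < N := by linarith
  have hp : 0 ≤ 1 / c - 1 := by
    rw [sub_nonneg, le_div_iff₀ hc]; linarith
  have h1 : (ph c N : ℝ) + 1 ≤ 2 * (N : ℝ) ^ c := by
    have := ph_le hc N
    have := Real.one_le_rpow hN1 hc.le
    linarith
  have h2 : ((ph c N : ℝ) + 1) ^ (1 / c - 1) ≤ (2 * (N : ℝ) ^ c) ^ (1 / c - 1) :=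
    Real.rpow_le_rpow (by positivity) h1 hp
  have h3 : (2 * (N : ℝ) ^ c) ^ (1 / c - 1) = 2 ^ (1 / c - 1) * (N : ℝ) ^ (1 - c) := by
    rw [Real.mul_rpow (by norm_num) (by positivity), ← Real.rpow_mul hN0.le]
    congr 2
    field_simp
  have h4 := De_upper hc hc1 (ph c N)
  rw [h3] at h2
  have h5 : 1 / c * ((ph c N : ℝ) + 1) ^ (1 / c - 1) ≤
      1 / c * (2 ^ (1 / c - 1) * (N : ℝ) ^ (1 - c)) :=
    mul_le_mul_of_nonneg_left h2 (by positivity)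
  have h6 : 1 ≤ (N : ℝ) ^ (1 - c) := Real.one_le_rpow hN1 (by linarith)
  calc De c (ph c N) + 1 ≤ 1 / c * (2 ^ (1 / c - 1) * (N : ℝ) ^ (1 - c)) + (N : ℝ) ^ (1 - c) := by
        linarith
    _ = _ := by ring

lemma small_power {θ C δ : ℝ} (hθ : θ < 1) (hδ : 0 < δ) :
    ∀ᶠ N : ℕ in atTop, C * (N : ℝ) ^ θ ≤ δ * N := by
  have h1 : Tendsto (fun N : ℕ => (N : ℝ) ^ (1 - θ)) atTop atTop :=
    (tendsto_rpow_atTop (by linarith)).comp tendsto_natCast_atTop_atTop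
  filter_upwards [h1.eventually_ge_atTop (C / δ), eventually_ge_atTop 1] with N hN hN1
  have hN0 : (0 : ℝ) < N := by exact_mod_cast hN1
  rw [div_le_iff₀ hδ] at hN
  have h2 : (N : ℝ) = (N : ℝ) ^ (1 - θ) * (N : ℝ) ^ θ := by
    rw [← Real.rpow_add hN0, sub_add_cancel, Real.rpow_one]
  calc C * (N : ℝ) ^ θ ≤ ((N : ℝ) ^ (1 - θ) * δ) * (N : ℝ) ^ θ :=
        mul_le_mul_of_nonneg_right hN (by positivity)
    _ = δ * ((N : ℝ) ^ (1 - θ) * (N : ℝ) ^ θ) := by ring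
    _ = _ := by rw [← h2]

section

variable {X : Type*} [MeasurableSpace X] {μ : Measure X} [IsProbabilityMeasure μ]

theorem block_small {c c' : ℝ} (hc : 0 < c) (hc1 : c < 1) (hc' : 0 ≤ c') (hcc : c' < c)
    {u β : ℕ → X → ℝ} (hu : ∀ m, Measurable (u m)) (hβ : ∀ n, Measurable (β n)) {R D Q : ℝ}
    (hR0 : 0 ≤ R) (hD0 : 0 ≤ D) (hQ0 : 0 ≤ Q)
    (hR : ∀ m x, |u m x| ≤ R) (hD : ∀ n x, |β n x| ≤ D) {d : ℕ → ℝ}
    (hd : ∀ n x, |β (n + 1) x - β n x| ≤ d n)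
    (hQ : ∀ N : ℕ, 1 ≤ N → ∑ n ∈ range N, d n ≤ Q * (N : ℝ) ^ c')
    (hwin : ∀ ε > 0, ∃ L : ℕ, 1 ≤ L ∧ ∀ M, n2 μ (fun x => ∑ j ∈ range L, u (M + j) x) ≤ ε * L)
    {δ : ℝ} (hδ : 0 < δ) :
    ∀ᶠ N : ℕ in atTop, n2 μ (fun x => ∑ n ∈ range N, β n x * u (ph c n) x) ≤ δ * N := by
  obtain ⟨L, hL, hwL⟩ := hwin (δ / (2 * (D + 1))) (by positivity)
  obtain ⟨C1, hC1, hDe⟩ := De_size hc hc1
  obtain ⟨θ, hθ⟩ : ∃ θ, θ = max (1 - c + c') (max c (1 - c)) := ⟨_, rfl⟩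
  have hθ1 : θ < 1 := by
    rw [hθ]
    exact max_lt (by linarith) (max_lt hc1 (by linarith))
  have ht1 : 1 - c + c' ≤ θ := by rw [hθ]; exact le_max_left _ _
  have ht2 : c ≤ θ := by rw [hθ]; exact (le_max_left _ _).trans (le_max_right _ _)
  have ht3 : 1 - c ≤ θ := by rw [hθ]; exact (le_max_right _ _).trans (le_max_right _ _)
  filter_upwards [small_power (C := L * (R * (3 * C1 * Q + D * (2 + C1) + 2 * D * C1)) +
    D * R * C1) hθ1 (show 0 < δ / 2 by positivity), eventually_ge_atTop 1] with N hN hN1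
  have hN1' : (1 : ℝ) ≤ N := by exact_mod_cast hN1
  have hN0 : (0 : ℝ) < N := by linarith
  have hb := block_bound (μ := μ) hc hc1 hu hβ hR hD hd hL
    (show 0 ≤ δ / (2 * (D + 1)) by positivity) hwL N
  refine hb.trans ?_
  have hW := hDe N hN1
  have hW0 : 0 ≤ De c (ph c N) + 1 := by linarith [De_nonneg hc hc1 (ph c N)]
  have hp1 : (N : ℝ) ^ (1 - c) ≤ (N : ℝ) ^ θ := Real.rpow_le_rpow_of_exponent_le hN1' ht3
  have hp2 : (N : ℝ) ^ c ≤ (N : ℝ) ^ θ := Real.rpow_le_rpow_of_exponent_le hN1' ht2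
  have hp3 : (N : ℝ) ^ (1 - c + c') ≤ (N : ℝ) ^ θ := Real.rpow_le_rpow_of_exponent_le hN1' ht1
  have hWθ : De c (ph c N) + 1 ≤ C1 * (N : ℝ) ^ θ :=
    hW.trans (mul_le_mul_of_nonneg_left hp1 hC1.le)
  have hd0 : 0 ≤ ∑ n ∈ range N, d n := by
    obtain ⟨x0⟩ : Nonempty X := by
      by_contra hcon
      rw [not_nonempty_iff] at hcon
      have h1 : μ Set.univ = 1 := measure_univ
      rw [Set.univ_eq_empty_iff.2 hcon, measure_empty] at h1
      exact zero_ne_one h1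
    exact Finset.sum_nonneg fun n _ => (abs_nonneg _).trans (hd n x0)
  have hWd : (De c (ph c N) + 1) * ∑ n ∈ range N, d n ≤ C1 * Q * (N : ℝ) ^ θ := by
    calc (De c (ph c N) + 1) * ∑ n ∈ range N, d n ≤
          (C1 * (N : ℝ) ^ (1 - c)) * (Q * (N : ℝ) ^ c') :=
          mul_le_mul hW (hQ N hN1) hd0 (by positivity)
      _ = C1 * Q * ((N : ℝ) ^ (1 - c) * (N : ℝ) ^ c') := by ring
      _ = C1 * Q * (N : ℝ) ^ (1 - c + c') := by rw [← Real.rpow_add hN0]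
      _ ≤ _ := mul_le_mul_of_nonneg_left hp3 (by positivity)
  have hKθ : (ph c N : ℝ) ≤ (N : ℝ) ^ θ := (ph_le hc N).trans hp2
  have hL0 : (0 : ℝ) ≤ L := Nat.cast_nonneg _
  have e1 : δ / (2 * (D + 1)) * (D * N) ≤ δ / 2 * N := by
    have : δ / (2 * (D + 1)) * (D * N) = (δ / 2 * N) * (D / (D + 1)) := by field_simp
    rw [this]
    refine mul_le_of_le_one_right (by positivity) ?_
    rw [div_le_one (by positivity)]; linarith
  have e2 : 3 * (De c (ph c N) + 1) * ∑ n ∈ range N, d n +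
      D * (2 * ph c N + De c (ph c N)) + 2 * D * (De c (ph c N) + 1) ≤
      (3 * C1 * Q + D * (2 + C1) + 2 * D * C1) * (N : ℝ) ^ θ := by
    have g1 := mul_le_mul_of_nonneg_left hKθ hD0
    have g2 := mul_le_mul_of_nonneg_left hWθ hD0
    have g3 : D * (2 * ph c N + De c (ph c N)) ≤
        2 * (D * (ph c N : ℝ)) + D * (De c (ph c N) + 1) := by
      have : D * (De c (ph c N)) ≤ D * (De c (ph c N) + 1) :=
        mul_le_mul_of_nonneg_left (by linarith) hD0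
      linarith
    calc _ ≤ 3 * (C1 * Q * (N : ℝ) ^ θ) + (2 * (D * (N : ℝ) ^ θ) + D * (C1 * (N : ℝ) ^ θ)) +
          2 * (D * (C1 * (N : ℝ) ^ θ)) := by
          have : 3 * (De c (ph c N) + 1) * ∑ n ∈ range N, d n =
            3 * ((De c (ph c N) + 1) * ∑ n ∈ range N, d n) := by ring
          linarith
      _ = _ := by ring
  have e3 : D * R * (De c (ph c N) + 1) ≤ D * R * C1 * (N : ℝ) ^ θ := by
    calc _ ≤ D * R * (C1 * (N : ℝ) ^ θ) := mul_le_mul_of_nonneg_left hWθ (by positivity)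
      _ = _ := by ring
  have e4 := mul_le_mul_of_nonneg_left (mul_le_mul_of_nonneg_left e2 hR0) hL0
  calc _ ≤ δ / 2 * N + L * (R * ((3 * C1 * Q + D * (2 + C1) + 2 * D * C1) * (N : ℝ) ^ θ)) +
        D * R * C1 * (N : ℝ) ^ θ := add_le_add (add_le_add e1 e4) e3
    _ = δ / 2 * N + (L * (R * (3 * C1 * Q + D * (2 + C1) + 2 * D * C1)) + D * R * C1) *
        (N : ℝ) ^ θ := by ring
    _ ≤ δ / 2 * N + δ / 2 * N := add_le_add le_rfl hN
    _ = _ := by ring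

end

end Pool.Agent.N476.FR
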