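import Pool.Agent.N476.FR.A
import Pool.Agent.N476.FR.E

/-!
Averages of `f (T ^ (m ^ 2) x)` over windows, for a measure preserving map `T`.
-/

set_option autoImplicit false

namespace Pool.Agent.N476.FR

open Finset MeasureTheory Filter Topology

section

variable {X : Type*} [MeasurableSpace X] {μ : Measure X} [IsProbabilityMeasure μ]

/-- the Koopman operator -/
noncomputable def ko (T : X → X) (hT : MeasurePreserving T μ μ) : Lp ℝ 2 μ →ₗᵢ[ℝ] Lp ℝ 2 μ :=
  Lp.compMeasurePreservingₗᵢ ℝ T hT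

lemma ko_pow (T : X → X) (hT : MeasurePreserving T μ μ) (f : X → ℝ) (hf : MemLp f 2 μ) (n : ℕ) :
    (ko T hT ^ n) (hf.toLp f) =
      (hf.comp_measurePreserving (hT.iterate n)).toLp (f ∘ T^[n]) := by
  induction n with
  | zero => rfl
  | succ n ih =>
    rw [pow_succ', mul_ap, ih]
    rfl

lemma n2_mono {f g : X → ℝ} (hg : MemLp g 2 μ) (h : ∀ x, |f x| ≤ |g x|) : n2 μ f ≤ n2 μ g := by
  unfold n2
  exact ENNReal.toReal_mono hg.2.ne (eLpNorm_mono h)

lemma clip_le {a g C : ℝ} (ha : |a| ≤ C) : |a - max (-C) (min C g)| ≤ |a - g| := by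
  obtain ⟨h1, h2⟩ := abs_le.1 ha
  rcases le_total g (-C) with h | h
  · rw [min_eq_right (by linarith), max_eq_left h, abs_of_nonneg (by linarith),
      abs_of_nonneg (by linarith)]
    linarith
  · rcases le_total g C with h' | h'
    · rw [min_eq_right h', max_eq_right h]
    · rw [min_eq_left h', max_eq_right (by linarith), abs_of_nonpos (by linarith),
        abs_of_nonpos (by linarith)]
      linarith

/-- the averages over windows of `f (T ^ (m ^ 2) x)` converge uniformly -/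
theorem koop_window (T : X → X) (hT : MeasurePreserving T μ μ) (f : X → ℝ) (hf : Measurable f)
    {C : ℝ} (hC0 : 0 ≤ C) (hC : ∀ x, |f x| ≤ C) :
    ∃ g : X → ℝ, Measurable g ∧ (∀ x, |g x| ≤ C) ∧ ∀ ε > 0, ∃ L0 : ℕ, 1 ≤ L0 ∧ ∀ L ≥ L0, ∀ M : ℕ,
      n2 μ (fun x => ∑ j ∈ range L, (f (T^[(M + j) ^ 2] x) - g x)) ≤ ε * L := by
  have hfL : MemLp f 2 μ := memLp_bdd hf hC
  obtain ⟨g0, hg0⟩ := window_limit (ko T hT) (hfL.toLp f)
  have hg0m : Measurable (g0 : X → ℝ) := (Lp.stronglyMeasurable g0).measurable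
  refine ⟨fun x => max (-C) (min C (g0 x)), measurable_const.max (measurable_const.min hg0m),
    fun x => abs_le.2 ⟨le_max_left _ _, max_le (by linarith) (min_le_left _ _)⟩,
    fun ε hε => ?_⟩
  obtain ⟨L0, h1, hL0⟩ := hg0 ε hε
  refine ⟨L0, h1, fun L hL M => ?_⟩
  have hLn : 1 ≤ L := le_trans h1 hL
  have hLp : (0 : ℝ) < L := by exact_mod_cast hLn
  have h2 := hL0 L hL M
  have hTm : ∀ n, Measurable (fun x => f (T^[n] x)) := fun n => hf.comp (hT.iterate n).measurable
  -- the average as a function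
  obtain ⟨A, hA⟩ : ∃ A : X → ℝ, A = fun x => (L : ℝ)⁻¹ * ∑ j ∈ range L, f (T^[(M + j) ^ 2] x) :=
    ⟨_, rfl⟩
  have hAm : Measurable A := by
    rw [hA]
    exact (Finset.measurable_fun_sum _ fun j _ => hTm _).const_mul _
  have hAC : ∀ x, |A x| ≤ C := by
    intro x
    rw [hA]
    simp only
    rw [abs_mul, abs_of_nonneg (inv_nonneg.2 hLp.le), inv_mul_le_iff₀ hLp]
    refine (Finset.abs_sum_le_sum_abs _ _).trans ((Finset.sum_le_sum fun j _ => hC _).trans ?_)
    simp
  have hae : ((av (ko T hT) (hfL.toLp f) M L - g0 : Lp ℝ 2 μ) : X → ℝ) =ᵐ[μ]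
      fun x => A x - g0 x := by
    have e1 := Lp.coeFn_sub (av (ko T hT) (hfL.toLp f) M L) g0
    have e2 := Lp.coeFn_smul (L : ℝ)⁻¹ (∑ j ∈ range L, vv (ko T hT) (hfL.toLp f) (M + j))
    have e3 := Lp.coeFn_finsetSum (range L) (fun j => vv (ko T hT) (hfL.toLp f) (M + j))
    have e4 : ∀ᵐ x ∂μ, ∀ j : ℕ, (vv (ko T hT) (hfL.toLp f) (M + j) : Lp ℝ 2 μ) x =
        f (T^[(M + j) ^ 2] x) := by
      rw [ae_all_iff]
      intro j
      unfold vv
      rw [ko_pow]
      exact MemLp.coeFn_toLp _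
    filter_upwards [e1, e2, e3, e4] with x h1 h2 h3 h4
    rw [h1, Pi.sub_apply]
    unfold av
    rw [h2, Pi.smul_apply, h3, Finset.sum_apply, hA]
    simp only [smul_eq_mul]
    rw [Finset.sum_congr rfl fun j _ => h4 j]
  have h3 : n2 μ (fun x => A x - g0 x) ≤ ε := by
    rw [Lp.norm_def, eLpNorm_congr_ae hae] at h2
    exact h2
  have hAg : MemLp (fun x => A x - g0 x) 2 μ := (memLp_bdd hAm hAC).sub (Lp.memLp g0)
  have h4 : n2 μ (fun x => A x - max (-C) (min C (g0 x))) ≤ ε :=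
    (n2_mono hAg fun x => clip_le (hAC x)).trans h3
  have hAg' : MemLp (fun x => A x - max (-C) (min C (g0 x))) 2 μ := by
    refine memLp_bdd (hAm.sub (measurable_const.max (measurable_const.min hg0m)))
      (A := C + C) fun x => ?_
    refine (abs_sub _ _).trans (add_le_add (hAC x) (abs_le.2 ⟨le_max_left _ _,
      max_le (by linarith) (min_le_left _ _)⟩))
  have h5 : (fun x => ∑ j ∈ range L, (f (T^[(M + j) ^ 2] x) - max (-C) (min C (g0 x)))) =
      fun x => (L : ℝ) * (A x - max (-C) (min C (g0 x))) := by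
    funext x
    rw [Finset.sum_sub_distrib, Finset.sum_const, Finset.card_range, nsmul_eq_mul, hA, mul_sub,
      ← mul_assoc, mul_inv_cancel₀ hLp.ne', one_mul]
  rw [h5]
  refine (n2_mul (a := fun _ => (L : ℝ)) hAg' hLp.le (fun _ => by
    rw [abs_of_nonneg hLp.le])).trans ?_
  rw [mul_comm ε]
  exact mul_le_mul_of_nonneg_left h4 hLp.le

end

end Pool.Agent.N476.FR
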