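import Pool.Agent.N476.FR.F

/-!
Multiple averages along `⌊n ^ (c i)⌋ ^ 2` for different exponents `c i` in `(0, 1)`.
-/

set_option autoImplicit false

namespace Pool.Agent.N476.FR

open Finset MeasureTheory Filter Topology

section

variable {X : Type*} [MeasurableSpace X] {μ : Measure X} [IsProbabilityMeasure μ]

lemma abs_prod_le {ι : Type*} (s : Finset ι) (a : ι → ℝ) {C : ℝ} (hC : ∀ i, |a i| ≤ C) :
    |∏ i ∈ s, a i| ≤ C ^ s.card := by
  rw [Finset.abs_prod, ← Finset.prod_const]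
  exact Finset.prod_le_prod (fun i _ => abs_nonneg _) fun i _ => hC i

theorem induct {k : ℕ} {c : Fin k → ℝ} (hc : Function.Injective c)
    (hc01 : ∀ i, 0 < c i ∧ c i < 1) (T : Fin k → X → X) (hT : ∀ i, MeasurePreserving (T i) μ μ)
    (f g : Fin k → X → ℝ) (hf : ∀ i, Measurable (f i)) (hg : ∀ i, Measurable (g i)) {C : ℝ}
    (hC1 : 1 ≤ C) (hfC : ∀ i x, |f i x| ≤ C) (hgC : ∀ i x, |g i x| ≤ C)
    (hwin : ∀ i, ∀ ε > 0, ∃ L : ℕ, 1 ≤ L ∧ ∀ M : ℕ,
      n2 μ (fun x => ∑ j ∈ range L, (f i ((T i)^[(M + j) ^ 2] x) - g i x)) ≤ ε * L)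
    (s : Finset (Fin k)) : ∀ δ > 0, ∀ᶠ N : ℕ in atTop,
      n2 μ (fun x => ∑ n ∈ range N,
        (∏ i ∈ s, f i ((T i)^[(ph (c i) n) ^ 2] x) - ∏ i ∈ s, g i x)) ≤ δ * N := by
  classical
  have hC0 : 0 < C := by linarith
  induction s using Finset.induction_on_max_value c with
  | empty =>
    intro δ hδ
    refine Filter.Eventually.of_forall fun N => ?_
    have : (fun x : X => ∑ n ∈ range N, (∏ i ∈ (∅ : Finset (Fin k)), f i ((T i)^[(ph (c i) n) ^ 2] x) -
        ∏ i ∈ (∅ : Finset (Fin k)), g i x)) = fun _ => 0 := by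
      funext x; simp
    rw [this]
    refine (n2_bdd (A := 0) le_rfl fun x => by simp).trans ?_
    positivity
  | insert a s ha hmax ih =>
    intro δ hδ
    obtain ⟨β, hβ⟩ : ∃ β : ℕ → X → ℝ, β = fun n x => ∏ i ∈ s, f i ((T i)^[(ph (c i) n) ^ 2] x) :=
      ⟨_, rfl⟩
    obtain ⟨G, hG⟩ : ∃ G : X → ℝ, G = fun x => ∏ i ∈ s, g i x := ⟨_, rfl⟩
    obtain ⟨u, hu⟩ : ∃ u : ℕ → X → ℝ, u = fun m x => f a ((T a)^[m ^ 2] x) - g a x := ⟨_, rfl⟩
    obtain ⟨D, hD⟩ : ∃ D, D = C ^ s.card := ⟨_, rfl⟩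
    have hD0 : 0 ≤ D := by rw [hD]; positivity
    have hTm : ∀ i n, Measurable (fun x => f i ((T i)^[n] x)) :=
      fun i n => (hf i).comp ((hT i).iterate n).measurable
    have hβm : ∀ n, Measurable (β n) := by
      intro n; rw [hβ]
      exact Finset.measurable_fun_prod _ fun i _ => hTm i _
    have hGm : Measurable G := by
      rw [hG]; exact Finset.measurable_fun_prod _ fun i _ => hg i
    have hum : ∀ m, Measurable (u m) := by
      intro m; rw [hu]; exact (hTm a _).sub (hg a)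
    have hβD : ∀ n x, |β n x| ≤ D := by
      intro n x; rw [hβ, hD]; exact abs_prod_le s _ fun i => hfC i _
    have hGD : ∀ x, |G x| ≤ D := by
      intro x; rw [hG, hD]; exact abs_prod_le s _ fun i => hgC i _
    have huR : ∀ m x, |u m x| ≤ 2 * C := by
      intro m x; rw [hu]
      refine (abs_sub _ _).trans ?_
      have := hfC a ((T a)^[m ^ 2] x)
      have := hgC a x
      linarith
    obtain ⟨c', hc'0, hc'a, hc's⟩ : ∃ c', 0 ≤ c' ∧ c' < c a ∧ ∀ i ∈ s, c i ≤ c' := by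
      rcases s.eq_empty_or_nonempty with h | h
      · exact ⟨0, le_rfl, (hc01 a).1, by simp [h]⟩
      · obtain ⟨b, hb, hbmax⟩ := Finset.exists_max_image s c h
        refine ⟨c b, (hc01 b).1.le, lt_of_le_of_ne (hmax b hb) fun hcon => ?_, hbmax⟩
        exact ha (hc hcon ▸ hb)
    obtain ⟨d, hd⟩ : ∃ d : ℕ → ℝ, d = fun n =>
      2 * D * ∑ i ∈ s, ((ph (c i) (n + 1) : ℝ) - ph (c i) n) := ⟨_, rfl⟩
    have hphm : ∀ i n, (0 : ℝ) ≤ (ph (c i) (n + 1) : ℝ) - ph (c i) n := by
      intro i n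
      rw [sub_nonneg]
      exact_mod_cast ph_mono (hc01 i).1 (Nat.le_succ n)
    have hβd : ∀ n x, |β (n + 1) x - β n x| ≤ d n := by
      intro n x
      rw [hd]
      simp only
      have hs0 : 0 ≤ ∑ i ∈ s, ((ph (c i) (n + 1) : ℝ) - ph (c i) n) :=
        Finset.sum_nonneg fun i _ => hphm i n
      by_cases h : ∀ i ∈ s, ph (c i) (n + 1) = ph (c i) n
      · have : β (n + 1) x = β n x := by
          rw [hβ]
          exact Finset.prod_congr rfl fun i hi => by rw [h i hi]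
        rw [this, sub_self, abs_zero]
        positivity
      · push Not at h
        obtain ⟨i, hi, hne⟩ := h
        have h1 : (1 : ℝ) ≤ (ph (c i) (n + 1) : ℝ) - ph (c i) n := by
          have h2 := ph_mono (hc01 i).1 (Nat.le_succ n)
          have h3 : ph (c i) n + 1 ≤ ph (c i) (n + 1) := by
            have : n.succ = n + 1 := rfl
            rw [this] at h2
            omega
          have h4 : ((ph (c i) n + 1 : ℕ) : ℝ) ≤ ph (c i) (n + 1) := by exact_mod_cast h3
          push_cast at h4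
          linarith
        have h5 : (1 : ℝ) ≤ ∑ i ∈ s, ((ph (c i) (n + 1) : ℝ) - ph (c i) n) :=
          h1.trans (Finset.single_le_sum (f := fun i => (ph (c i) (n + 1) : ℝ) - ph (c i) n)
            (fun i _ => hphm i n) hi)
        calc |β (n + 1) x - β n x| ≤ |β (n + 1) x| + |β n x| := abs_sub _ _
          _ ≤ D + D := add_le_add (hβD _ _) (hβD _ _)
          _ = 2 * D * 1 := by ring
          _ ≤ _ := mul_le_mul_of_nonneg_left h5 (by positivity)
    have hQ : ∀ N : ℕ, 1 ≤ N → ∑ n ∈ range N, d n ≤ (2 * D * s.card) * (N : ℝ) ^ c' := by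
      intro N hN
      have hN1 : (1 : ℝ) ≤ N := by exact_mod_cast hN
      rw [hd]
      rw [← Finset.mul_sum, Finset.sum_comm, mul_assoc (2 * D)]
      refine mul_le_mul_of_nonneg_left ?_ (by positivity)
      have h1 : ∀ i ∈ s, ∑ n ∈ range N, ((ph (c i) (n + 1) : ℝ) - ph (c i) n) ≤ (N : ℝ) ^ c' := by
        intro i hi
        rw [Finset.sum_range_sub (fun n => (ph (c i) n : ℝ))]
        have h2 := ph_le (hc01 i).1 N
        have h3 : (N : ℝ) ^ (c i) ≤ (N : ℝ) ^ c' :=
          Real.rpow_le_rpow_of_exponent_le hN1 (hc's i hi)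
        have h4 : (0 : ℝ) ≤ (ph (c i) 0 : ℝ) := Nat.cast_nonneg _
        linarith
      refine (Finset.sum_le_sum h1).trans (le_of_eq ?_)
      rw [Finset.sum_const, nsmul_eq_mul]
    have hsmall := block_small (μ := μ) (hc01 a).1 (hc01 a).2 hc'0 hc'a hum hβm
      (show 0 ≤ 2 * C by positivity) hD0 (show 0 ≤ 2 * D * (s.card : ℝ) by positivity)
      huR hβD hβd hQ (by rw [hu]; exact hwin a) (show 0 < δ / 2 by positivity)
    filter_upwards [hsmall, ih (δ / (2 * C)) (by positivity)] with N h1 h2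
    have hmem1 : MemLp (fun x => ∑ n ∈ range N, β n x * u (ph (c a) n) x) 2 μ := by
      refine memLp_finsetSum _ fun n _ => memLp_bdd ((hβm n).mul (hum _)) (A := D * (2 * C))
        fun x => ?_
      rw [abs_mul]
      exact mul_le_mul (hβD _ _) (huR _ _) (abs_nonneg _) hD0
    have hmem2 : MemLp (fun x => ∑ n ∈ range N, (β n x - G x)) 2 μ := by
      refine memLp_finsetSum _ fun n _ => memLp_bdd ((hβm n).sub hGm) (A := D + D) fun x => ?_
      exact (abs_sub _ _).trans (add_le_add (hβD _ _) (hGD _))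
    have hmem3 : MemLp (fun x => g a x * ∑ n ∈ range N, (β n x - G x)) 2 μ := by
      have e : (fun x => g a x * ∑ n ∈ range N, (β n x - G x)) =
          fun x => ∑ n ∈ range N, g a x * (β n x - G x) := by
        funext x; rw [Finset.mul_sum]
      rw [e]
      refine memLp_finsetSum _ fun n _ => memLp_bdd ((hg a).mul ((hβm n).sub hGm))
        (A := C * (D + D)) fun x => ?_
      rw [abs_mul]
      exact mul_le_mul (hgC _ _) ((abs_sub _ _).trans (add_le_add (hβD _ _) (hGD _)))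
        (abs_nonneg _) hC0.le
    have hdec : (fun x => ∑ n ∈ range N, (∏ i ∈ insert a s, f i ((T i)^[(ph (c i) n) ^ 2] x) -
        ∏ i ∈ insert a s, g i x)) = fun x =>
        (∑ n ∈ range N, β n x * u (ph (c a) n) x) + g a x * ∑ n ∈ range N, (β n x - G x) := by
      funext x
      rw [Finset.mul_sum, ← Finset.sum_add_distrib]
      refine Finset.sum_congr rfl fun n _ => ?_
      rw [Finset.prod_insert ha, Finset.prod_insert ha, hβ, hu, hG]
      ring
    rw [hdec]
    refine (n2_add hmem1 hmem3).trans ?_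
    have h3 : n2 μ (fun x => g a x * ∑ n ∈ range N, (β n x - G x)) ≤ C * (δ / (2 * C) * N) := by
      refine (n2_mul hmem2 hC0.le (hgC a)).trans (mul_le_mul_of_nonneg_left ?_ hC0.le)
      rw [hβ, hG]
      exact h2
    have h4 : C * (δ / (2 * C) * N) = δ / 2 * N := by field_simp
    linarith

lemma icc_sum (F : ℕ → ℝ) (N : ℕ) : ∑ n ∈ Icc 1 N, F n = ∑ j ∈ range N, F (1 + j) := by
  induction N with
  | zero => simp
  | succ N ih =>
    rw [Finset.sum_Icc_succ_top (by omega), Finset.sum_range_succ, ih, add_comm 1 N]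

lemma eLp_tendsto {f : ℕ → X → ℝ} (hf : ∀ N, MemLp (f N) 2 μ)
    (h : ∀ δ > 0, ∀ᶠ N : ℕ in atTop, n2 μ (f N) ≤ δ) :
    Tendsto (fun N => eLpNorm (f N) 2 μ) atTop (𝓝 0) := by
  have h1 : Tendsto (fun N => n2 μ (f N)) atTop (𝓝 0) := by
    rw [Metric.tendsto_nhds]
    intro ε hε
    filter_upwards [h (ε / 2) (by positivity)] with N hN
    rw [Real.dist_eq, sub_zero, abs_of_nonneg (n2_nonneg _)]
    linarith
  have h2 := ENNReal.tendsto_ofReal h1
  rw [ENNReal.ofReal_zero] at h2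
  refine h2.congr fun N => ?_
  unfold n2
  exact ENNReal.ofReal_toReal (hf N).2.ne

theorem main {k : ℕ} {c : Fin k → ℝ} (hc : Function.Injective c)
    (hc01 : ∀ i, 0 < c i ∧ c i < 1) (T : Fin k → X → X) (hT : ∀ i, MeasurePreserving (T i) μ μ)
    (f : Fin k → X → ℝ) (hf : ∀ i, Measurable (f i)) (hb : ∀ i, ∃ C : ℝ, ∀ x, |f i x| ≤ C) :
    ∃ g : Fin k → X → ℝ, (∀ i, Measurable (g i)) ∧ (∀ i, ∃ C : ℝ, ∀ x, |g i x| ≤ C) ∧
      (∀ i, Tendsto (fun N : ℕ => eLpNorm (fun x => (1 / (N : ℝ)) *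
        ∑ n ∈ Icc 1 N, f i ((T i)^[n ^ 2] x) - g i x) 2 μ) atTop (𝓝 0)) ∧
      Tendsto (fun N : ℕ => eLpNorm (fun x => (1 / (N : ℝ)) *
        ∑ n ∈ Icc 1 N, ∏ i, f i ((T i)^[⌊(n : ℝ) ^ c i⌋₊ ^ 2] x) - ∏ i, g i x) 2 μ)
        atTop (𝓝 0) := by
  classical
  choose C0 hC0 using hb
  obtain ⟨C, hC⟩ : ∃ C, C = 1 + ∑ i, |C0 i| := ⟨_, rfl⟩
  have hC1 : 1 ≤ C := by
    rw [hC]
    have : 0 ≤ ∑ i, |C0 i| := Finset.sum_nonneg fun i _ => abs_nonneg _
    linarith
  have hCp : 0 < C := by linarith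
  have hfC : ∀ i x, |f i x| ≤ C := by
    intro i x
    have h1 := Finset.single_le_sum (f := fun i => |C0 i|) (fun i _ => abs_nonneg _)
      (Finset.mem_univ i)
    have h2 := le_abs_self (C0 i)
    have h3 := hC0 i x
    rw [hC]
    linarith
  have hex := fun i => koop_window (T i) (hT i) (f i) (hf i) hCp.le (hfC i)
  choose g hg hgC hwin using hex
  have hTm : ∀ i n, Measurable (fun x => f i ((T i)^[n] x)) :=
    fun i n => (hf i).comp ((hT i).iterate n).measurable
  refine ⟨g, hg, fun i => ⟨C, hgC i⟩, fun i => ?_, ?_⟩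
  · refine eLp_tendsto (fun N => ?_) fun δ hδ => ?_
    · have m1 : MemLp (fun x => ∑ n ∈ Icc 1 N, f i ((T i)^[n ^ 2] x)) 2 μ :=
        memLp_finsetSum _ fun n _ => memLp_bdd (hTm i (n ^ 2)) (A := C) fun x => hfC i _
      have m2 : MemLp (fun x => (1 / (N : ℝ)) * ∑ n ∈ Icc 1 N, f i ((T i)^[n ^ 2] x)) 2 μ :=
        m1.const_mul _
      exact m2.sub (memLp_bdd (hg i) (hgC i))
    · obtain ⟨L0, h1, hL0⟩ := hwin i δ hδ
      filter_upwards [eventually_ge_atTop L0] with N hN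
      have hN0 : (0 : ℝ) < N := by exact_mod_cast (le_trans h1 hN)
      have e : (fun x => (1 / (N : ℝ)) * ∑ n ∈ Icc 1 N, f i ((T i)^[n ^ 2] x) - g i x) =
          fun x => (1 / (N : ℝ)) * ∑ j ∈ range N, (f i ((T i)^[(1 + j) ^ 2] x) - g i x) := by
        funext x
        rw [icc_sum (fun n => f i ((T i)^[n ^ 2] x)), Finset.sum_sub_distrib, Finset.sum_const,
          Finset.card_range, nsmul_eq_mul, mul_sub, ← mul_assoc, one_div_mul_cancel hN0.ne',
          one_mul]
      rw [e]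
      have hm : MemLp (fun x => ∑ j ∈ range N, (f i ((T i)^[(1 + j) ^ 2] x) - g i x)) 2 μ := by
        refine memLp_finsetSum _ fun n _ => memLp_bdd ((hTm i _).sub (hg i)) (A := C + C)
          fun x => (abs_sub _ _).trans (add_le_add (hfC i _) (hgC i _))
      refine (n2_mul (a := fun _ => 1 / (N : ℝ)) hm (A := 1 / (N : ℝ)) (by positivity)
        (fun _ => by rw [abs_of_nonneg (by positivity)])).trans ?_
      calc _ ≤ 1 / (N : ℝ) * (δ * N) :=
            mul_le_mul_of_nonneg_left (hL0 N hN 1) (by positivity)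
        _ = δ := by field_simp
  · obtain ⟨F, hF⟩ : ∃ F : ℕ → X → ℝ, F = fun (n : ℕ) (x : X) =>
      ∏ i, f i ((T i)^[⌊(n : ℝ) ^ c i⌋₊ ^ 2] x) - ∏ i, g i x := ⟨_, rfl⟩
    have hpm : ∀ n : ℕ, Measurable (fun x => ∏ i, f i ((T i)^[⌊(n : ℝ) ^ c i⌋₊ ^ 2] x)) :=
      fun n => Finset.measurable_fun_prod _ fun i _ => hTm i _
    have hgm : Measurable (fun x => ∏ i, g i x) :=
      Finset.measurable_fun_prod _ fun i _ => hg i
    have hpb : ∀ (n : ℕ) x, |∏ i, f i ((T i)^[⌊(n : ℝ) ^ c i⌋₊ ^ 2] x)| ≤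
        C ^ (Finset.univ : Finset (Fin k)).card := fun n x => abs_prod_le _ _ fun i => hfC i _
    have hgb : ∀ x, |∏ i, g i x| ≤ C ^ (Finset.univ : Finset (Fin k)).card :=
      fun x => abs_prod_le _ _ fun i => hgC i _
    obtain ⟨B, hB⟩ : ∃ B, B = C ^ (Finset.univ : Finset (Fin k)).card +
      C ^ (Finset.univ : Finset (Fin k)).card := ⟨_, rfl⟩
    have hB0 : 0 ≤ B := by rw [hB]; positivity
    have hFm : ∀ n, Measurable (F n) := fun n => by rw [hF]; exact (hpm n).sub hgm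
    have hFb : ∀ n x, |F n x| ≤ B := fun n x => by
      rw [hF, hB]; exact (abs_sub _ _).trans (add_le_add (hpb n x) (hgb x))
    refine eLp_tendsto (fun N => ?_) fun δ hδ => ?_
    · have m1 : MemLp (fun x => ∑ n ∈ Icc 1 N,
          ∏ i, f i ((T i)^[⌊(n : ℝ) ^ c i⌋₊ ^ 2] x)) 2 μ :=
        memLp_finsetSum _ fun n _ => memLp_bdd (hpm n) (hpb n)
      have m2 : MemLp (fun x => (1 / (N : ℝ)) * ∑ n ∈ Icc 1 N,
          ∏ i, f i ((T i)^[⌊(n : ℝ) ^ c i⌋₊ ^ 2] x)) 2 μ := m1.const_mul _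
      exact m2.sub (memLp_bdd hgm hgb)
    · have hind := induct (μ := μ) hc hc01 T hT f g hf hg hC1 hfC hgC
        (fun i ε hε => by
          obtain ⟨L0, h1, hL0⟩ := hwin i ε hε
          exact ⟨L0, h1, fun M => hL0 L0 le_rfl M⟩) Finset.univ (δ / 4) (by positivity)
      have hind' := (tendsto_add_atTop_nat 1).eventually hind
      obtain ⟨N1, hN1⟩ := exists_nat_ge (2 * B / δ)
      filter_upwards [hind', eventually_ge_atTop 1, eventually_ge_atTop N1] with N h1 h2 h3
      have hN0 : (0 : ℝ) < N := by exact_mod_cast h2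
      have hN1' : (1 : ℝ) ≤ N := by exact_mod_cast h2
      have hBN : 2 * B ≤ δ * N := by
        rw [div_le_iff₀ hδ] at hN1
        have : (N1 : ℝ) ≤ N := by exact_mod_cast h3
        have := mul_le_mul_of_nonneg_right this hδ.le
        linarith
      have hsF : n2 μ (fun x => ∑ n ∈ range (N + 1), F n x) ≤ δ / 4 * (N + 1 : ℕ) := by
        rw [hF]; exact h1
      have e : (fun x => (1 / (N : ℝ)) * ∑ n ∈ Icc 1 N, ∏ i, f i ((T i)^[⌊(n : ℝ) ^ c i⌋₊ ^ 2] x) -
          ∏ i, g i x) =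
          fun x => (1 / (N : ℝ)) * (∑ n ∈ range (N + 1), F n x + -F 0 x) := by
        funext x
        rw [icc_sum (fun n : ℕ => ∏ i, f i ((T i)^[⌊(n : ℝ) ^ c i⌋₊ ^ 2] x)),
          Finset.sum_range_succ' (fun n => F n x)]
        have e1 : ∑ n ∈ range N, F (n + 1) x =
            ∑ j ∈ range N, (∏ i, f i ((T i)^[⌊((1 + j : ℕ) : ℝ) ^ c i⌋₊ ^ 2] x)) -
              N * ∏ i, g i x := by
          rw [hF]
          simp only
          rw [Finset.sum_sub_distrib, Finset.sum_const, Finset.card_range, nsmul_eq_mul]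
          congr 1
          exact Finset.sum_congr rfl fun j _ => by rw [add_comm j 1]
        rw [e1, add_assoc, add_neg_cancel, add_zero, mul_sub, ← mul_assoc (1 / (N : ℝ)),
          one_div_mul_cancel hN0.ne', one_mul]
      rw [e]
      have hm1 : MemLp (fun x => ∑ n ∈ range (N + 1), F n x) 2 μ :=
        memLp_finsetSum _ fun n _ => memLp_bdd (hFm n) (hFb n)
      have hm2 : MemLp (fun x => -F 0 x) 2 μ :=
        memLp_bdd (hFm 0).neg (A := B) fun x => by rw [abs_neg]; exact hFb 0 x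
      have hm : MemLp (fun x => ∑ n ∈ range (N + 1), F n x + -F 0 x) 2 μ := hm1.add hm2
      refine (n2_mul (a := fun _ => 1 / (N : ℝ)) hm (A := 1 / (N : ℝ)) (by positivity)
        (fun _ => by rw [abs_of_nonneg (by positivity)])).trans ?_
      have hn2 : n2 μ (fun x => -F 0 x) ≤ B :=
        n2_bdd hB0 fun x => by rw [abs_neg]; exact hFb 0 x
      have htot := (n2_add hm1 hm2).trans (add_le_add hsF hn2)
      calc _ ≤ 1 / (N : ℝ) * (δ / 4 * (N + 1 : ℕ) + B) :=
            mul_le_mul_of_nonneg_left htot (by positivity)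
        _ ≤ 1 / (N : ℝ) * (δ * N) := by
            refine mul_le_mul_of_nonneg_left ?_ (by positivity)
            push_cast
            have := mul_le_mul_of_nonneg_left hN1' hδ.le
            linarith
        _ = δ := by field_simp

end

end Pool.Agent.N476.FR
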